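import Pool.Agent.AE.Basic

set_option autoImplicit false

namespace Pool.Agent.AE

open Finset

variable {n : ℕ}

/-- Avoider's invariant -/
structure Inv (b : ℕ) (A F : Finset (Sym2 (Fin n))) (p : ℕ) : Prop where
  tri : ¬ HasTri A
  disj : Disjoint A F
  diag : ∀ e ∈ F, ¬ e.IsDiag
  cnt : A.card * (b + 1) + F.card = (allEdges n).card
  deg : ∀ v, dg A v ≤ 1 + p
  th : (Th A).card ≤ p * (p + 1)
  pot : p = 0 ∨ p * (b + 1) + F.card ≤ 2 * n * ((allEdges n).card / (b + 1))

theorem Inv.card_le {b : ℕ} {A F : Finset (Sym2 (Fin n))} {p : ℕ} (h : Inv b A F p) :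
    A.card ≤ (allEdges n).card / (b + 1) := by
  rw [Nat.le_div_iff_mul_le (Nat.succ_pos b)]
  have := h.cnt
  show A.card * (b + 1) ≤ _
  omega

theorem wins_empty {E : Type*} [DecidableEq E] {b : ℕ} {W : Finset E → Prop} {k : ℕ}
    {A : Finset E} (h : EnforcerWinsFrom b W k A ∅) : W A := by
  cases k with
  | zero => exact h
  | succ k => exact h.1 rfl

/-- one non-final step of Avoider -/
theorem Inv.step {b : ℕ} {A F F' : Finset (Sym2 (Fin n))} {p : ℕ} (h : Inv b A F p)
    {x u : Fin n} (he : s(x,u) ∈ F) (hu : ¬ Touch A u)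
    (hx : ¬ Touch A x ∨ ∀ e ∈ F, ∃ v ∈ e, Touch A v)
    (hF' : F' ⊆ F.erase s(x,u)) (hc : F'.card + (b + 1) = F.card) :
    ∃ p', Inv b (insert s(x,u) A) F' p' := by
  classical
  have hxu : x ≠ u := by
    have := h.diag _ he
    simpa using this
  have heA : s(x,u) ∉ A := fun h' => (Finset.disjoint_left.1 h.disj h') he
  have tri : ¬ HasTri (insert s(x,u) A) := not_hasTri_insert hxu h.tri hu
  have disj : Disjoint (insert s(x,u) A) F' := by
    rw [Finset.disjoint_insert_left]
    refine ⟨fun h' => ?_, ?_⟩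
    · have := hF' h'
      simp at this
    · exact h.disj.mono_right (hF'.trans (Finset.erase_subset _ _))
  have diag : ∀ e ∈ F', ¬ e.IsDiag := fun e h' => h.diag e (Finset.mem_of_mem_erase (hF' h'))
  have cnt : (insert s(x,u) A).card * (b + 1) + F'.card = (allEdges n).card := by
    rw [Finset.card_insert_of_notMem heA, ← h.cnt, ← hc]
    ring
  have hth := Th_insert_card (A := A) hxu hu
  rcases hx with hx | hx
  · refine ⟨p, tri, disj, diag, cnt, ?_, ?_, ?_⟩
    · intro v
      by_cases hv : v ∈ s(x,u)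
      · have h0 : dg A v = 0 := by
          rw [mem_sym2_ne] at hv
          rcases hv with rfl | rfl
          · exact dg_eq_zero hx
          · exact dg_eq_zero hu
        have := dg_insert_le (A := A) s(x,u) v
        omega
      · rw [dg_insert_eq hv]
        exact h.deg v
    · rw [dg_eq_zero hx] at hth
      exact hth.trans h.th
    · rcases h.pot with h1 | h1
      · left; exact h1
      · right; omega
  · refine ⟨p + 1, tri, disj, diag, cnt, ?_, ?_, ?_⟩
    · intro v
      have := dg_insert_le (A := A) s(x,u) v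
      have := h.deg v
      omega
    · have h1 := h.deg x
      have h2 := h.th
      calc _ ≤ _ := hth
        _ ≤ p * (p + 1) + (1 + p) := by omega
        _ ≤ (p + 1) * (p + 1 + 1) := by nlinarith
    · right
      rcases h.pot with h1 | h1
      · subst h1
        have h2 := card_touch_le hx
        have h3 := h.card_le
        have h4 : 2 * A.card * n ≤ 2 * n * ((allEdges n).card / (b + 1)) := by
          calc 2 * A.card * n = 2 * n * A.card := by ring
            _ ≤ _ := Nat.mul_le_mul_left _ h3
        have h5 : (0 + 1) * (b + 1) + F'.card = F.card := by rw [← hc]; ring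
        omega
      · have : (p + 1) * (b + 1) + F'.card = p * (b + 1) + F.card := by rw [← hc]; ring
        omega

theorem Inv.pbound {b : ℕ} {A F : Finset (Sym2 (Fin n))} {p : ℕ} (h : Inv b A F p)
    (hT : 2 * (allEdges n).card ≤ n ^ 2) : p * (b + 1) ^ 2 ≤ n ^ 3 := by
  rcases h.pot with h1 | h1
  · subst h1; simp
  · have h2 : p * (b + 1) ≤ 2 * n * ((allEdges n).card / (b + 1)) := by omega
    calc p * (b + 1) ^ 2 = (p * (b + 1)) * (b + 1) := by ring
      _ ≤ (2 * n * ((allEdges n).card / (b + 1))) * (b + 1) := Nat.mul_le_mul_right _ h2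
      _ = 2 * n * ((allEdges n).card / (b + 1) * (b + 1)) := by ring
      _ ≤ 2 * n * (allEdges n).card := Nat.mul_le_mul_left _ (Nat.div_mul_le_self _ _)
      _ = n * (2 * (allEdges n).card) := by ring
      _ ≤ n * n ^ 2 := Nat.mul_le_mul_left _ hT
      _ = n ^ 3 := by ring

theorem avoider_main {b : ℕ} (hT : 2 * (allEdges n).card ≤ n ^ 2)
    (H1 : 4 * ((allEdges n).card / (b + 1)) ^ 2 < b + 2)
    (H2 : ∀ q r p, (allEdges n).card = q * (b + 1) + r → 1 ≤ r → r ≤ b + 1 →
      p * (b + 1) ^ 2 ≤ n ^ 3 → p * (p + 1) < r)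
    {W : Finset (Sym2 (Fin n)) → Prop} (hW : ∀ A, W A → HasTri A) :
    ∀ (k : ℕ) (A F : Finset (Sym2 (Fin n))) (p : ℕ), Inv b A F p → F.card ≤ k →
      ¬ EnforcerWinsFrom b W k A F := by
  classical
  intro k
  induction k with
  | zero =>
    intro A F p h _ hw
    exact h.tri (hW _ hw)
  | succ k ih =>
    intro A F p h hk hw
    by_cases hF : F = ∅
    · exact h.tri (hW _ (hw.1 hF))
    have hpos : 1 ≤ F.card := Finset.card_pos.2 (Finset.nonempty_iff_ne_empty.2 hF)
    by_cases hle : F.card ≤ b + 1
    · -- the last move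
      have hp := H2 A.card F.card p h.cnt.symm hpos hle (h.pbound hT)
      have : ∃ e ∈ F, e ∉ Th A := by
        by_contra hcon
        push Not at hcon
        have := Finset.card_le_card (show F ⊆ Th A from hcon)
        have := h.th
        omega
      obtain ⟨e, heF, heT⟩ := this
      obtain ⟨B, hB, hBc, hw'⟩ := hw.2 e heF
      have hBe : B = F.erase e := by
        apply Finset.eq_of_subset_of_card_le hB
        rw [hBc, Finset.card_erase_of_mem heF]
        omega
      rw [hBe, Finset.sdiff_self] at hw'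
      exact not_hasTri_insert_of_not_mem_Th h.tri heT (hW _ (wins_empty hw'))
    · -- a normal move
      have hA := h.card_le
      -- find the edge
      have hex : ∃ x u : Fin n, s(x,u) ∈ F ∧ ¬ Touch A u ∧
          (¬ Touch A x ∨ ∀ e ∈ F, ∃ v ∈ e, Touch A v) := by
        by_cases hall : ∀ e ∈ F, ∃ v ∈ e, Touch A v
        · have : ¬ ∀ e ∈ F, ∀ v ∈ e, Touch A v := by
            intro hcon
            have h1 := card_inside_le hcon
            have h2 : 4 * A.card * A.card ≤ 4 * ((allEdges n).card / (b + 1)) ^ 2 := by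
              have := Nat.pow_le_pow_left hA 2
              nlinarith
            omega
          push Not at this
          obtain ⟨e, heF, v, hve, hv⟩ := this
          obtain ⟨w, rfl⟩ := hve
          exact ⟨w, v, by rw [Sym2.eq_swap]; exact heF, hv, Or.inr hall⟩
        · push Not at hall
          obtain ⟨e, heF, he⟩ := hall
          induction e using Sym2.ind with
          | _ x u =>
            exact ⟨x, u, heF, he u (by simp), Or.inl (he x (by simp))⟩
      obtain ⟨x, u, heF, hu, hx⟩ := hex
      obtain ⟨B, hB, hBc, hw'⟩ := hw.2 _ heF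
      have hce := Finset.card_erase_of_mem heF
      have hcF' : ((F.erase s(x,u)) \ B).card + (b + 1) = F.card := by
        rw [Finset.card_sdiff_of_subset hB, hBc, hce]
        omega
      obtain ⟨p', h'⟩ := h.step heF hu hx (Finset.sdiff_subset) hcF'
      exact ih _ _ p' h' (by omega) hw'

theorem inv_start {b : ℕ} : Inv (n := n) b ∅ (allEdges n) 0 where
  tri := by
    rintro ⟨x, y, z, _, _, _, h, _⟩
    simp at h
  disj := Finset.disjoint_empty_left _
  diag := by
    intro e he
    simpa [allEdges] using he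
  cnt := by simp
  deg := by intro v; simp [dg]
  th := by
    have : Th (∅ : Finset (Sym2 (Fin n))) = ∅ := by
      ext e
      simp [mem_Th]
    rw [this]
    simp
  pot := Or.inl rfl

theorem card_allEdges (n : ℕ) : (allEdges n).card = n * (n - 1) / 2 := by
  have h := Sym2.card_subtype_not_diag (α := Fin n)
  rw [Fintype.card_fin, Nat.choose_two_right, Fintype.card_subtype] at h
  rw [← h]
  rfl

theorem two_card_allEdges_le (n : ℕ) : 2 * (allEdges n).card ≤ n ^ 2 := by
  rw [card_allEdges]
  have h1 : 2 * (n * (n - 1) / 2) ≤ n * (n - 1) := Nat.mul_div_le _ _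
  have h2 : n * (n - 1) ≤ n * n := Nat.mul_le_mul_left _ (Nat.sub_le _ _)
  calc _ ≤ _ := h1
    _ ≤ _ := h2
    _ = n ^ 2 := by ring

theorem avoider_wins {b : ℕ}
    (H1 : 4 * ((n * (n - 1) / 2) / (b + 1)) ^ 2 < b + 2)
    (H2 : ∀ q r p, n * (n - 1) / 2 = q * (b + 1) + r → 1 ≤ r → r ≤ b + 1 →
      p * (b + 1) ^ 2 ≤ n ^ 3 → p * (p + 1) < r) :
    ¬ EnforcerWins K3 n b := by
  unfold EnforcerWins
  exact avoider_main (two_card_allEdges_le n) (by rw [card_allEdges]; exact H1)
    (by rw [card_allEdges]; exact H2) (fun A h => hasTri_of_contained h) _ _ _ 0 inv_start le_rfl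

end Pool.Agent.AE
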