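import Pool.Agent.AE.Defs

set_option autoImplicit false

namespace Pool.Agent.AE

open Finset

variable {n : ℕ}

/-- the triangle -/
def K3 : SimpleGraph (Fin 3) := ⊤

def HasTri (A : Finset (Sym2 (Fin n))) : Prop :=
  ∃ x y z : Fin n, x ≠ y ∧ y ≠ z ∧ x ≠ z ∧ s(x,y) ∈ A ∧ s(y,z) ∈ A ∧ s(x,z) ∈ A

def HasCherry (A : Finset (Sym2 (Fin n))) : Prop :=
  ∃ x y z : Fin n, x ≠ y ∧ y ≠ z ∧ x ≠ z ∧ s(x,y) ∈ A ∧ s(y,z) ∈ A

theorem hasTri_of_contained {A : Finset (Sym2 (Fin n))}
    (h : K3.IsContained (SimpleGraph.fromEdgeSet (A : Set (Sym2 (Fin n))))) : HasTri A := by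
  obtain ⟨f⟩ := h
  have hadj : ∀ i j : Fin 3, i ≠ j → s(f i, f j) ∈ A ∧ f i ≠ f j := by
    intro i j hij
    have h1 : K3.Adj i j := by simpa [K3] using hij
    have h2 := f.toHom.map_rel h1
    have h3 : (SimpleGraph.fromEdgeSet (A : Set (Sym2 (Fin n)))).Adj (f i) (f j) := h2
    rw [SimpleGraph.fromEdgeSet_adj] at h3
    exact ⟨by exact_mod_cast h3.1, h3.2⟩
  refine ⟨f 0, f 1, f 2, (hadj 0 1 (by decide)).2, (hadj 1 2 (by decide)).2,
    (hadj 0 2 (by decide)).2, (hadj 0 1 (by decide)).1, (hadj 1 2 (by decide)).1,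
    (hadj 0 2 (by decide)).1⟩

/-- `A` touches the vertex `v` -/
def Touch (A : Finset (Sym2 (Fin n))) (v : Fin n) : Prop := ∃ e ∈ A, v ∈ e

/-- degree -/
def dg (A : Finset (Sym2 (Fin n))) (v : Fin n) : ℕ := (A.filter (fun e => v ∈ e)).card

theorem dg_eq_zero {A : Finset (Sym2 (Fin n))} {v : Fin n} (h : ¬ Touch A v) : dg A v = 0 := by
  rw [dg, Finset.card_eq_zero, Finset.filter_eq_empty_iff]
  intro e he hv
  exact h ⟨e, he, hv⟩

/-- the pairs which would close a triangle -/
noncomputable def Th (A : Finset (Sym2 (Fin n))) : Finset (Sym2 (Fin n)) := by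
  classical
  exact univ.filter (fun e => ∃ x y z : Fin n, e = s(x,z) ∧ x ≠ z ∧ s(x,y) ∈ A ∧ s(y,z) ∈ A)

theorem mem_Th {A : Finset (Sym2 (Fin n))} {e : Sym2 (Fin n)} :
    e ∈ Th A ↔ ∃ x y z : Fin n, e = s(x,z) ∧ x ≠ z ∧ s(x,y) ∈ A ∧ s(y,z) ∈ A := by
  simp [Th]

theorem not_hasTri_insert_of_not_mem_Th {A : Finset (Sym2 (Fin n))} {e : Sym2 (Fin n)}
    (hA : ¬ HasTri A) (he : e ∉ Th A) : ¬ HasTri (insert e A) := by
  rintro ⟨x, y, z, hxy, hyz, hxz, h1, h2, h3⟩
  rw [Finset.mem_insert] at h1 h2 h3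
  by_cases e1 : s(x,y) ∈ A
  · by_cases e2 : s(y,z) ∈ A
    · by_cases e3 : s(x,z) ∈ A
      · exact hA ⟨x, y, z, hxy, hyz, hxz, e1, e2, e3⟩
      · have h := h3.resolve_right e3
        exact he (mem_Th.2 ⟨x, y, z, h.symm, hxz, e1, e2⟩)
    · have h := h2.resolve_right e2
      by_cases e3 : s(x,z) ∈ A
      · exact he (mem_Th.2 ⟨y, x, z, h.symm, hyz, by rw [Sym2.eq_swap]; exact e1, e3⟩)
      · have h' := h3.resolve_right e3
        rw [← h, Sym2.eq_iff] at h'
        rcases h' with ⟨g, _⟩ | ⟨g, g'⟩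
        · exact absurd g hxy
        · exact absurd g hxz
  · have h := h1.resolve_right e1
    by_cases e2 : s(y,z) ∈ A
    · by_cases e3 : s(x,z) ∈ A
      · exact he (mem_Th.2 ⟨x, z, y, h.symm, hxy, e3, by rw [Sym2.eq_swap]; exact e2⟩)
      · have h' := h3.resolve_right e3
        rw [← h, Sym2.eq_iff] at h'
        rcases h' with ⟨_, g⟩ | ⟨g, g'⟩
        · exact absurd g.symm hyz
        · exact absurd g hxy
    · have h' := h2.resolve_right e2
      rw [← h, Sym2.eq_iff] at h'
      rcases h' with ⟨g, _⟩ | ⟨g, g'⟩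
      · exact absurd g.symm hxy
      · exact absurd g'.symm hxz

theorem mem_sym2_ne {x y w : Fin n} : w ∈ s(x,y) ↔ w = x ∨ w = y := Sym2.mem_iff

/-- adding an edge `xu` with `u` untouched creates no triangle -/
theorem not_hasTri_insert {A : Finset (Sym2 (Fin n))} {x u : Fin n} (hxu : x ≠ u)
    (hA : ¬ HasTri A) (hu : ¬ Touch A u) : ¬ HasTri (insert s(x,u) A) := by
  apply not_hasTri_insert_of_not_mem_Th hA
  rw [mem_Th]
  rintro ⟨a, b, c, h, hac, h1, h2⟩
  have hmem : u ∈ s(a,c) := by rw [← h]; simp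
  rw [mem_sym2_ne] at hmem
  rcases hmem with rfl | rfl
  · exact hu ⟨_, h1, by simp⟩
  · exact hu ⟨_, h2, by simp⟩

/-- number of new threats when adding `xu` with `u` untouched -/
theorem Th_insert_card {A : Finset (Sym2 (Fin n))} {x u : Fin n} (hxu : x ≠ u)
    (hu : ¬ Touch A u) : (Th (insert s(x,u) A)).card ≤ (Th A).card + dg A x := by
  classical
  have hsub : Th (insert s(x,u) A) ⊆ Th A ∪
      (A.filter (fun e => x ∈ e)).biUnion (fun e => (univ.filter (fun y => e = s(x,y))).image (fun y => s(u,y))) := by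
    intro e he
    obtain ⟨a, b, c, rfl, hac, h1, h2⟩ := mem_Th.1 he
    rw [Finset.mem_insert] at h1 h2
    rw [Finset.mem_union]
    have key : ∀ a b c : Fin n, a ≠ c → s(a,b) = s(x,u) → s(b,c) ∈ A →
        s(a,c) ∈ (A.filter (fun e => x ∈ e)).biUnion
          (fun e => (univ.filter (fun y => e = s(x,y))).image (fun y => s(u,y))) := by
      intro a b c hac hab hbc
      rw [Sym2.eq_iff] at hab
      rcases hab with ⟨rfl, rfl⟩ | ⟨rfl, rfl⟩
      · exact absurd ⟨_, hbc, by simp⟩ hu
      · rw [Finset.mem_biUnion]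
        refine ⟨s(b,c), by simp [hbc], ?_⟩
        rw [Finset.mem_image]
        exact ⟨c, by simp, rfl⟩
    by_cases e1 : s(a,b) ∈ A
    · by_cases e2 : s(b,c) ∈ A
      · left; exact mem_Th.2 ⟨a, b, c, rfl, hac, e1, e2⟩
      · right
        have h := h2.resolve_right e2
        have := key c b a hac.symm (by rw [Sym2.eq_swap]; exact h) (by rw [Sym2.eq_swap]; exact e1)
        rwa [Sym2.eq_swap] at this
    · have h := h1.resolve_right e1
      by_cases e2 : s(b,c) ∈ A
      · right; exact key a b c hac h e2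
      · exfalso
        have h' := h2.resolve_right e2
        rw [← h, Sym2.eq_iff] at h'
        rcases h' with ⟨g, g'⟩ | ⟨g, g'⟩
        · apply hac
          rw [← g, g']
        · exact hac g'.symm
  refine (Finset.card_le_card hsub).trans ((Finset.card_union_le _ _).trans ?_)
  gcongr
  refine Finset.card_biUnion_le.trans ?_
  rw [dg, Finset.card_eq_sum_ones]
  refine Finset.sum_le_sum (fun e he => ?_)
  refine Finset.card_image_le.trans ?_
  rw [Finset.card_le_one]
  intro y hy y' hy'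
  simp only [Finset.mem_filter, Finset.mem_univ, true_and] at hy hy'
  rw [hy] at hy'
  have := Sym2.congr_right.1 hy'
  exact this

theorem dg_insert_le {A : Finset (Sym2 (Fin n))} (e : Sym2 (Fin n)) (v : Fin n) :
    dg (insert e A) v ≤ dg A v + 1 := by
  unfold dg
  rw [Finset.filter_insert]
  split_ifs
  · exact Finset.card_insert_le _ _
  · omega

theorem dg_insert_eq {A : Finset (Sym2 (Fin n))} {e : Sym2 (Fin n)} {v : Fin n} (h : v ∉ e) :
    dg (insert e A) v = dg A v := by
  unfold dg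
  rw [Finset.filter_insert, if_neg h]

/-- the touched vertices -/
noncomputable def VA (A : Finset (Sym2 (Fin n))) : Finset (Fin n) := by
  classical
  exact univ.filter (fun v => Touch A v)

theorem mem_VA {A : Finset (Sym2 (Fin n))} {v : Fin n} : v ∈ VA A ↔ Touch A v := by
  simp [VA]

theorem card_mem_sym2 (e : Sym2 (Fin n)) : (univ.filter (fun v => v ∈ e)).card ≤ 2 := by
  induction e using Sym2.ind with
  | _ x y =>
    have : (univ.filter (fun v => v ∈ s(x,y))) ⊆ {x, y} := by
      intro v hv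
      simpa using hv
    exact (Finset.card_le_card this).trans Finset.card_le_two

theorem card_VA (A : Finset (Sym2 (Fin n))) : (VA A).card ≤ 2 * A.card := by
  classical
  have hsub : VA A ⊆ A.biUnion (fun e => univ.filter (fun v => v ∈ e)) := by
    intro v hv
    obtain ⟨e, he, hve⟩ := mem_VA.1 hv
    rw [Finset.mem_biUnion]
    exact ⟨e, he, by simpa using hve⟩
  refine (Finset.card_le_card hsub).trans (Finset.card_biUnion_le.trans ?_)
  calc ∑ e ∈ A, (univ.filter (fun v => v ∈ e)).card ≤ ∑ _e ∈ A, 2 :=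
        Finset.sum_le_sum (fun e _ => card_mem_sym2 e)
    _ = 2 * A.card := by rw [Finset.sum_const, smul_eq_mul, mul_comm]

/-- if every edge of `F` touches `A`, then `F` is small -/
theorem card_touch_le {A F : Finset (Sym2 (Fin n))} (h : ∀ e ∈ F, ∃ v ∈ e, Touch A v) :
    F.card ≤ 2 * A.card * n := by
  classical
  have hsub : F ⊆ ((VA A) ×ˢ (univ : Finset (Fin n))).image (fun p => s(p.1, p.2)) := by
    intro e he
    obtain ⟨v, hv, ht⟩ := h e he
    obtain ⟨w, rfl⟩ := hv
    rw [Finset.mem_image]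
    exact ⟨(v, w), by simp [mem_VA, ht], rfl⟩
  refine (Finset.card_le_card hsub).trans (Finset.card_image_le.trans ?_)
  rw [Finset.card_product, Finset.card_univ, Fintype.card_fin]
  exact Nat.mul_le_mul_right _ (card_VA A)

/-- if both ends of every edge of `F` are touched by `A`, then `F` is very small -/
theorem card_inside_le {A F : Finset (Sym2 (Fin n))} (h : ∀ e ∈ F, ∀ v ∈ e, Touch A v) :
    F.card ≤ 4 * A.card * A.card := by
  classical
  have hsub : F ⊆ ((VA A) ×ˢ (VA A)).image (fun p => s(p.1, p.2)) := by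
    intro e he
    induction e using Sym2.ind with
    | _ x y =>
      rw [Finset.mem_image]
      exact ⟨(x, y), by simp [mem_VA, h _ he x (by simp), h _ he y (by simp)], rfl⟩
  refine (Finset.card_le_card hsub).trans (Finset.card_image_le.trans ?_)
  rw [Finset.card_product]
  calc (VA A).card * (VA A).card ≤ (2 * A.card) * (2 * A.card) :=
        Nat.mul_le_mul (card_VA A) (card_VA A)
    _ = _ := by ring

end Pool.Agent.AE
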