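import Mathlib

set_option autoImplicit false

namespace Pool.Agent.AE

open Finset

/-- `EnforcerWinsFrom b W k A F`: in the strict `(1:b)` Avoider-Enforcer game, Avoider to move,
`A` the set of elements claimed by Avoider so far and `F` the set of free elements, Enforcer can
force that the final set `A` of Avoider satisfies `W`.  The number `k` is an upper bound for the
number of free elements (it only serves to make the recursion terminate).

If nothing is free, the game is over.  Otherwise Avoider claims one free element `e`, and Enforcer
answers by claiming a set `B` of exactly `b` free elements, or all of them if fewer are left. -/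
def EnforcerWinsFrom {E : Type*} [DecidableEq E] (b : ℕ) (W : Finset E → Prop) :
    ℕ → Finset E → Finset E → Prop
  | 0, A, _ => W A
  | k + 1, A, F => (F = ∅ → W A) ∧ ∀ e ∈ F, ∃ B : Finset E, B ⊆ F.erase e ∧
      B.card = min b (F.erase e).card ∧ EnforcerWinsFrom b W k (insert e A) ((F.erase e) \ B)

/-- The set of edges of the complete graph on `Fin n`. -/
def allEdges (n : ℕ) : Finset (Sym2 (Fin n)) := univ.filter (fun e => ¬ e.IsDiag)

/-- Enforcer has a winning strategy in the strict `(1:b)` Avoider-Enforcer `H`-game on `K_n`:
he can force Avoider's final graph to contain a copy of `H`. -/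
def EnforcerWins {V : Type*} (H : SimpleGraph V) (n b : ℕ) : Prop :=
  EnforcerWinsFrom b
    (fun A : Finset (Sym2 (Fin n)) =>
      H.IsContained (SimpleGraph.fromEdgeSet (A : Set (Sym2 (Fin n)))))
    (allEdges n).card ∅ (allEdges n)

/-- The lower threshold: the largest `m` such that Enforcer wins for every bias `1 ≤ b ≤ m`. -/
noncomputable def lowerThreshold {V : Type*} (H : SimpleGraph V) (n : ℕ) : ℕ :=
  sSup {m : ℕ | ∀ b, 1 ≤ b → b ≤ m → EnforcerWins H n b}

/-- The upper threshold: the largest bias `b` for which Enforcer wins. -/
noncomputable def upperThreshold {V : Type*} (H : SimpleGraph V) (n : ℕ) : ℕ :=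
  sSup {b : ℕ | 1 ≤ b ∧ EnforcerWins H n b}

/-- `H - e`: delete the edge `e` together with any end of `e` that has degree one in `H`. -/
def deleteEdge {V : Type*} (H : SimpleGraph V) (e : Sym2 V) :
    SimpleGraph {v : V // ¬ (v ∈ e ∧ (H.neighborSet v).ncard = 1)} :=
  (H.deleteEdges {e}).comap Subtype.val

/-- `max_{e ∈ E(H)} f^-_{H-e}(n)`. -/
noncomputable def maxLower {V : Type*} (H : SimpleGraph V) (n : ℕ) : ℕ :=
  ⨆ e : H.edgeSet, lowerThreshold (deleteEdge H (e : Sym2 V)) n

end Pool.Agent.AE
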