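import Pool.Agent.AE.NT

set_option autoImplicit false

namespace Pool.Agent.AE

open Finset

theorem no_divisor_aux (R B N0 : ℕ) (hR : 1 ≤ R) : ∃ n, N0 ≤ n ∧ ∀ r, 1 ≤ r → r ≤ R →
    ∀ k, n ≤ 16 * k ^ 2 → k ^ 2 ≤ B * n → ¬ k ∣ n * (n - 1) / 2 - r := by
  obtain ⟨Z, hZ⟩ : ∃ Z, Z = 16 * R + 16 := ⟨_, rfl⟩
  obtain ⟨M, hM⟩ : ∃ M, M = 2 * (Z.factorial) ^ 2 := ⟨_, rfl⟩
  have hMpos : 0 < M := by rw [hM]; positivity
  obtain ⟨a, ha⟩ : ∃ a, a = 2 * B * M + 16 * R ^ 2 := ⟨_, rfl⟩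
  have h2a : a ≤ 2 ^ (2 * a) := by
    have h1 : a < 2 ^ a := Nat.lt_two_pow_self
    have h2 : 2 ^ a ≤ 2 ^ (2 * a) := Nat.pow_le_pow_right (by norm_num) (by omega)
    omega
  have hcop : ∀ p, p.Prime → Z < p → ∀ r, 1 ≤ r → r ≤ R → ¬ p ∣ 2 * M * (1 + 8 * r) := by
    intro p hp hZp r hr1 hr2 hdiv
    rw [hp.dvd_mul, hp.dvd_mul] at hdiv
    rcases hdiv with (h | h) | h
    · have := Nat.le_of_dvd (by norm_num) h
      omega
    · rw [hM, hp.dvd_mul] at h
      rcases h with h | h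
      · have := Nat.le_of_dvd (by norm_num) h
        omega
      · have h1 := hp.dvd_of_dvd_pow h
        rw [hp.dvd_factorial] at h1
        omega
    · have := Nat.le_of_dvd (by omega) h
      omega
  obtain ⟨l, L, t, hl, hlL, haL, ht1, ht2, hgood⟩ :=
    exists_good R a M Z (max N0 (R + 3)) hR (by omega) hcop
  have hl1 : N0 ≤ l := le_trans (le_max_left _ _) hl
  have hl2 : R + 3 ≤ l := le_trans (le_max_right _ _) hl
  obtain ⟨n, hn⟩ : ∃ n, n = M * t := ⟨_, rfl⟩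
  have htl : l ≤ t := by
    have h1 : L < 2 ^ L := Nat.lt_two_pow_self
    have h2 : 2 ^ L ≤ 2 ^ (2 * L) := Nat.pow_le_pow_right (by norm_num) (by omega)
    omega
  have htn : t ≤ n := by rw [hn]; exact Nat.le_mul_of_pos_left _ hMpos
  have hTn : n ≤ n * (n - 1) / 2 := by
    rw [Nat.le_div_iff_mul_le (by norm_num)]
    exact Nat.mul_le_mul_left _ (by omega)
  refine ⟨n, by omega, ?_⟩
  intro r hr1 hr2 k hk1 hk2 hdiv
  obtain ⟨hg1, hg2⟩ := hgood r hr1 hr2
  have hkpos : 0 < k := by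
    rcases Nat.eq_zero_or_pos k with rfl | h
    · simp at hk1; omega
    · exact h
  -- factor r
  have hrZ : r ∣ Z.factorial := Nat.dvd_factorial (by omega) (by omega)
  obtain ⟨c, hc⟩ := hrZ
  have hn1 : 1 ≤ n := by omega
  have hT : n * (n - 1) / 2 = r * (Z.factorial * (c * t * (n - 1))) := by
    have : n * (n - 1) = 2 * (r * (Z.factorial * (c * t * (n - 1)))) := by
      calc n * (n - 1) = (2 * (Z.factorial) ^ 2 * t) * (n - 1) := by rw [← hM, ← hn]
        _ = 2 * (Z.factorial * (Z.factorial * (t * (n - 1)))) := by ring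
        _ = 2 * (Z.factorial * ((r * c) * (t * (n - 1)))) := by rw [← hc]
        _ = _ := by ring
    rw [this, Nat.mul_div_cancel_left _ (by norm_num)]
  obtain ⟨X, hX⟩ : ∃ X, X = c * t * (n - 1) := ⟨_, rfl⟩
  rw [← hX] at hT
  have hTr : r < n * (n - 1) / 2 := by omega
  have hZX : 1 ≤ Z.factorial * X := by
    rcases Nat.eq_zero_or_pos (Z.factorial * X) with h | h
    · rw [hT, h] at hTr
      omega
    · exact h
  obtain ⟨G, hG⟩ : ∃ G, G + 1 = Z.factorial * X := ⟨Z.factorial * X - 1, by omega⟩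
  have hTG : n * (n - 1) / 2 - r = r * G := by
    rw [hT, ← hG, mul_add, mul_one, Nat.add_sub_cancel]
  rw [hTG] at hdiv
  -- k2
  obtain ⟨g, hg⟩ : ∃ g, g = Nat.gcd k r := ⟨_, rfl⟩
  have hgpos : 0 < g := by rw [hg]; exact Nat.gcd_pos_of_pos_left _ hkpos
  have hgk : g ∣ k := by rw [hg]; exact Nat.gcd_dvd_left _ _
  have hgr : g ∣ r := by rw [hg]; exact Nat.gcd_dvd_right _ _
  have hgR : g ≤ R := (Nat.le_of_dvd (by omega) hgr).trans hr2
  obtain ⟨k2, hk2'⟩ := hgk
  obtain ⟨r2, hr2'⟩ := hgr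
  have hcop2 : Nat.Coprime k2 r2 := by
    have h1 := Nat.coprime_div_gcd_div_gcd (m := k) (n := r) (by rw [← hg]; exact hgpos)
    rw [← hg] at h1
    have h2 : k / g = k2 := by
      conv_lhs => rw [hk2']
      exact Nat.mul_div_cancel_left _ hgpos
    have h3 : r / g = r2 := by
      conv_lhs => rw [hr2']
      exact Nat.mul_div_cancel_left _ hgpos
    rwa [h2, h3] at h1
  have hk2G : k2 ∣ G := by
    have h1 : g * k2 ∣ g * (r2 * G) := by
      rw [← mul_assoc, ← hr2', ← hk2']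
      exact hdiv
    have h2 : k2 ∣ r2 * G := Nat.dvd_of_mul_dvd_mul_left hgpos h1
    exact hcop2.dvd_of_dvd_mul_left h2
  -- the integer identity
  have hint : ((8 : ℤ) * (r * G : ℕ)) = (2 * M * t - 1) ^ 2 - (1 + 8 * r) := by
    have h1 : 2 * (n * (n - 1) / 2) = n * (n - 1) := by
      have : n * (n - 1) = 2 * (r * (Z.factorial * X)) := by
        rw [hX]
        calc n * (n - 1) = (2 * (Z.factorial) ^ 2 * t) * (n - 1) := by rw [← hM, ← hn]
          _ = 2 * (Z.factorial * (Z.factorial * (t * (n - 1)))) := by ring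
          _ = 2 * (Z.factorial * ((r * c) * (t * (n - 1)))) := by rw [← hc]
          _ = _ := by ring
      rw [this, Nat.mul_div_cancel_left _ (by norm_num)]
    have h2 : 2 * (r * G + r) = n * (n - 1) := by
      rw [← h1, ← hTG]
      congr 1
      omega
    have h3 : (2 : ℤ) * ((r : ℤ) * G + r) = (n : ℤ) * (n - 1) := by
      have h4 : ((n - 1 : ℕ) : ℤ) = (n : ℤ) - 1 := by
        push_cast [Nat.cast_sub hn1]
        ring
      rw [← h4]
      exact_mod_cast h2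
    have h5 : (n : ℤ) = M * t := by rw [hn]; push_cast; ring
    rw [h5] at h3
    push_cast
    linarith
  have hdvd : ∀ m : ℕ, m ∣ G → (m : ℤ) ∣ (2 * M * t - 1) ^ 2 - (1 + 8 * r) := by
    intro m hm
    rw [← hint]
    apply Dvd.dvd.mul_left
    exact_mod_cast Dvd.dvd.mul_left hm r
  have hrough : ∀ p, p.Prime → p ∣ k2 → 2 ^ l < p := by
    intro p hp hpk
    have hpG := hpk.trans hk2G
    have hZp : Z < p := by
      by_contra hcon
      push Not at hcon
      have h1 : p ∣ Z.factorial := (hp.dvd_factorial).2 hcon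
      have h2 : p ∣ G + 1 := by rw [hG]; exact Dvd.dvd.mul_right h1 _
      have h3 : p ∣ 1 := (Nat.dvd_add_right hpG).1 h2
      exact hp.one_lt.ne' (Nat.dvd_one.1 h3)
    by_contra hcon
    push Not at hcon
    exact hg1 p hp hZp hcon (hdvd p hpG)
  have hk2pos : 0 < k2 := by
    rcases Nat.eq_zero_or_pos k2 with rfl | h
    · simp at hk2'; omega
    · exact h
  have hk2le : k2 ≤ k := by rw [hk2']; exact Nat.le_mul_of_pos_left _ hgpos
  have hkR : k ≤ R * k2 := by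
    conv_lhs => rw [hk2']
    exact Nat.mul_le_mul_right _ hgR
  have hwin : k2 ∈ Wd l (L - a) (L + a) := by
    simp only [Wd, Finset.mem_filter, Finset.mem_Ioc]
    refine ⟨⟨?_, ?_⟩, hrough⟩
    · by_contra hcon
      push Not at hcon
      have h1 : 2 ^ (2 * L) < 16 * k ^ 2 := by
        calc 2 ^ (2 * L) < t := ht1
          _ ≤ n := htn
          _ ≤ _ := hk1
      have h2 : 16 * k ^ 2 ≤ 16 * (R * 2 ^ (L - a)) ^ 2 := by
        gcongr
        exact hkR.trans (Nat.mul_le_mul_left _ hcon)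
      have h3 : 16 * (R * 2 ^ (L - a)) ^ 2 = (16 * R ^ 2) * 2 ^ (2 * (L - a)) := by
        rw [pow_mul']; ring
      have h4 : (16 * R ^ 2) * 2 ^ (2 * (L - a)) ≤ 2 ^ (2 * a) * 2 ^ (2 * (L - a)) := by
        apply Nat.mul_le_mul_right
        calc 16 * R ^ 2 ≤ a := by rw [ha]; exact Nat.le_add_left _ _
          _ ≤ _ := h2a
      have h5 : 2 ^ (2 * a) * 2 ^ (2 * (L - a)) = 2 ^ (2 * L) := by
        rw [← pow_add]; congr 1; omega
      omega
    · have h1 : k2 ^ 2 ≤ (2 ^ (L + a)) ^ 2 := by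
        calc k2 ^ 2 ≤ k ^ 2 := Nat.pow_le_pow_left hk2le 2
          _ ≤ B * n := hk2
          _ = B * (M * t) := by rw [hn]
          _ ≤ B * (M * (2 * 2 ^ (2 * L))) := by gcongr
          _ = (2 * B * M) * 2 ^ (2 * L) := by ring
          _ ≤ 2 ^ (2 * a) * 2 ^ (2 * L) := by
              apply Nat.mul_le_mul_right
              calc 2 * B * M ≤ a := by rw [ha]; exact Nat.le_add_right _ _
                _ ≤ _ := h2a
          _ = (2 ^ (L + a)) ^ 2 := by rw [← pow_add, ← pow_mul]; congr 1; ring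
      exact (Nat.pow_le_pow_iff_left (by norm_num)).1 h1
  exact hg2 k2 hwin (hdvd k2 hk2G)

/-- For all `R, B` there are arbitrarily large `n` such that none of the numbers
`n(n-1)/2 - r`, `1 ≤ r ≤ R`, has a divisor in the window `[√n/4, √(B n)]`. -/
theorem no_divisor (R B N0 : ℕ) : ∃ n, N0 ≤ n ∧ ∀ r, 1 ≤ r → r ≤ R →
    ∀ k, n ≤ 16 * k ^ 2 → k ^ 2 ≤ B * n → ¬ k ∣ n * (n - 1) / 2 - r := by
  obtain ⟨n, hn, h⟩ := no_divisor_aux (R + 1) B N0 (by omega)
  exact ⟨n, hn, fun r h1 h2 => h r h1 (by omega)⟩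

end Pool.Agent.AE
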