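import Pool.Agent.AE.Basic

set_option autoImplicit false

namespace Pool.Agent.AE

open Finset

variable {n : ℕ}

/-- `G` is the clique on `U` together with the star from `w` to `W` -/
def Rep (G : Finset (Sym2 (Fin n))) (U W : Finset (Fin n)) (w : Fin n) : Prop :=
  w ∉ U ∧ W ⊆ U ∧ ∀ e, e ∈ G ↔ (∃ x ∈ U, ∃ y ∈ U, x ≠ y ∧ e = s(x,y)) ∨ (∃ v ∈ W, e = s(w,v))

theorem Rep.eraseEdge {G : Finset (Sym2 (Fin n))} {U W : Finset (Fin n)} {w v : Fin n}
    (h : Rep G U W w) (hv : v ∈ W) : Rep (G.erase s(w,v)) U (W.erase v) w := by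
  refine ⟨h.1, (Finset.erase_subset _ _).trans h.2.1, ?_⟩
  intro e
  rw [Finset.mem_erase, h.2.2 e]
  constructor
  · rintro ⟨hne, h1 | ⟨v', hv', rfl⟩⟩
    · exact Or.inl h1
    · refine Or.inr ⟨v', ?_, rfl⟩
      rw [Finset.mem_erase]
      refine ⟨?_, hv'⟩
      rintro rfl
      exact hne rfl
  · rintro (⟨x, hx, y, hy, hxy, rfl⟩ | ⟨v', hv', rfl⟩)
    · refine ⟨?_, Or.inl ⟨x, hx, y, hy, hxy, rfl⟩⟩
      intro hcon
      have : w ∈ s(x,y) := by rw [hcon]; simp
      rw [mem_sym2_ne] at this
      rcases this with rfl | rfl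
      · exact h.1 hx
      · exact h.1 hy
    · rw [Finset.mem_erase] at hv'
      refine ⟨?_, Or.inr ⟨v', hv'.2, rfl⟩⟩
      intro hcon
      exact hv'.1 (Sym2.congr_right.1 hcon)

theorem Rep.switch {G : Finset (Sym2 (Fin n))} {U : Finset (Fin n)} {w x : Fin n}
    (h : Rep G U ∅ w) (hx : x ∈ U) : Rep G (U.erase x) (U.erase x) x := by
  refine ⟨Finset.notMem_erase _ _, Finset.Subset.refl _, ?_⟩
  intro e
  rw [h.2.2 e]
  constructor
  · rintro (⟨a, ha, c, hc, hac, rfl⟩ | ⟨v, hv, _⟩)
    · by_cases hax : a = x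
      · subst hax
        exact Or.inr ⟨c, Finset.mem_erase.2 ⟨hac.symm, hc⟩, rfl⟩
      · by_cases hcx : c = x
        · subst hcx
          exact Or.inr ⟨a, Finset.mem_erase.2 ⟨hac, ha⟩, Sym2.eq_swap⟩
        · exact Or.inl ⟨a, Finset.mem_erase.2 ⟨hax, ha⟩, c, Finset.mem_erase.2 ⟨hcx, hc⟩, hac, rfl⟩
    · simp at hv
  · rintro (⟨a, ha, c, hc, hac, rfl⟩ | ⟨v, hv, rfl⟩)
    · exact Or.inl ⟨a, Finset.mem_of_mem_erase ha, c, Finset.mem_of_mem_erase hc, hac, rfl⟩
    · exact Or.inl ⟨x, hx, v, Finset.mem_of_mem_erase hv, (Finset.ne_of_mem_erase hv).symm, rfl⟩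

theorem Rep.removeEnds {G : Finset (Sym2 (Fin n))} {U W : Finset (Fin n)} {w : Fin n}
    (h : Rep G U W w) (x y : Fin n) :
    ∃ U' W' , Rep (G.filter (fun e => x ∉ e ∧ y ∉ e)) U' W' w := by
  classical
  refine ⟨U \ {x, y}, if w = x ∨ w = y then ∅ else W \ {x, y}, ?_, ?_, ?_⟩
  · intro hcon
    exact h.1 (Finset.sdiff_subset hcon)
  · split_ifs
    · exact Finset.empty_subset _
    · exact Finset.sdiff_subset_sdiff h.2.1 (Finset.Subset.refl _)
  · intro e
    rw [Finset.mem_filter, h.2.2 e]
    constructor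
    · rintro ⟨⟨a, ha, c, hc, hac, rfl⟩ | ⟨v, hv, rfl⟩, hx, hy⟩
      · left
        rw [mem_sym2_ne, not_or] at hx hy
        refine ⟨a, ?_, c, ?_, hac, rfl⟩
        · simp only [Finset.mem_sdiff, Finset.mem_insert, Finset.mem_singleton, not_or]
          exact ⟨ha, fun h => hx.1 h.symm, fun h => hy.1 h.symm⟩
        · simp only [Finset.mem_sdiff, Finset.mem_insert, Finset.mem_singleton, not_or]
          exact ⟨hc, fun h => hx.2 h.symm, fun h => hy.2 h.symm⟩
      · right
        rw [mem_sym2_ne, not_or] at hx hy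
        rw [if_neg (by rintro (h | h); exacts [hx.1 h.symm, hy.1 h.symm])]
        refine ⟨v, ?_, rfl⟩
        simp only [Finset.mem_sdiff, Finset.mem_insert, Finset.mem_singleton, not_or]
        exact ⟨hv, fun h => hx.2 h.symm, fun h => hy.2 h.symm⟩
    · rintro (⟨a, ha, c, hc, hac, rfl⟩ | ⟨v, hv, rfl⟩)
      · simp only [Finset.mem_sdiff, Finset.mem_insert, Finset.mem_singleton, not_or] at ha hc
        refine ⟨Or.inl ⟨a, ha.1, c, hc.1, hac, rfl⟩, ?_, ?_⟩
        · rw [mem_sym2_ne, not_or]
          exact ⟨fun h => ha.2.1 h.symm, fun h => hc.2.1 h.symm⟩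
        · rw [mem_sym2_ne, not_or]
          exact ⟨fun h => ha.2.2 h.symm, fun h => hc.2.2 h.symm⟩
      · by_cases hw : w = x ∨ w = y
        · rw [if_pos hw] at hv
          simp at hv
        · rw [if_neg hw] at hv
          simp only [Finset.mem_sdiff, Finset.mem_insert, Finset.mem_singleton, not_or] at hv
          rw [not_or] at hw
          refine ⟨Or.inr ⟨v, hv.1, rfl⟩, ?_, ?_⟩
          · rw [mem_sym2_ne, not_or]
            exact ⟨fun h => hw.1 h.symm, fun h => hv.2.1 h.symm⟩
          · rw [mem_sym2_ne, not_or]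
            exact ⟨fun h => hw.2 h.symm, fun h => hv.2.2 h.symm⟩

def Str (G : Finset (Sym2 (Fin n))) : Prop := ∃ U W w, Rep G U W w

theorem Str.removeEnds {G : Finset (Sym2 (Fin n))} (h : Str G) (x y : Fin n) :
    Str (G.filter (fun e => x ∉ e ∧ y ∉ e)) := by
  obtain ⟨U, W, w, h⟩ := h
  obtain ⟨U', W', h'⟩ := h.removeEnds x y
  exact ⟨U', W', w, h'⟩

theorem Str.exists_erase {G : Finset (Sym2 (Fin n))} (h : Str G) (hne : G.Nonempty) :
    ∃ e ∈ G, Str (G.erase e) := by
  obtain ⟨U, W, w, h⟩ := h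
  by_cases hW : W = ∅
  · subst hW
    obtain ⟨e, he⟩ := hne
    rw [h.2.2 e] at he
    rcases he with ⟨x, hx, y, hy, hxy, rfl⟩ | ⟨v, hv, _⟩
    · have h' := h.switch hx
      have hy' : y ∈ U.erase x := Finset.mem_erase.2 ⟨hxy.symm, hy⟩
      exact ⟨s(x,y), (h'.2.2 _).2 (Or.inr ⟨y, hy', rfl⟩), _, _, _, h'.eraseEdge hy'⟩
    · simp at hv
  · obtain ⟨v, hv⟩ := Finset.nonempty_iff_ne_empty.2 hW
    exact ⟨s(w,v), (h.2.2 _).2 (Or.inr ⟨v, hv, rfl⟩), _, _, _, h.eraseEdge hv⟩

theorem Str.exists_remove {G : Finset (Sym2 (Fin n))} (h : Str G) (m : ℕ) (hm : m ≤ G.card) :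
    ∃ B ⊆ G, B.card = m ∧ Str (G \ B) := by
  classical
  induction m generalizing G with
  | zero => exact ⟨∅, Finset.empty_subset _, rfl, by simpa using h⟩
  | succ m ih =>
    obtain ⟨e, he, h'⟩ := h.exists_erase (Finset.card_pos.1 (by omega))
    obtain ⟨B, hB, hBc, hS⟩ := ih h' (by rw [Finset.card_erase_of_mem he]; omega)
    have heB : e ∉ B := fun hcon => by
      have := hB hcon
      simp at this
    refine ⟨insert e B, ?_, ?_, ?_⟩
    · intro f hf
      rw [Finset.mem_insert] at hf
      rcases hf with rfl | hf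
      · exact he
      · exact Finset.mem_of_mem_erase (hB hf)
    · rw [Finset.card_insert_of_notMem heB, hBc]
    · have : G \ insert e B = (G.erase e) \ B := by
        ext f
        simp only [Finset.mem_sdiff, Finset.mem_insert, Finset.mem_erase, not_or]
        tauto
      rw [this]
      exact hS

theorem Rep.card_le {G : Finset (Sym2 (Fin n))} {U W : Finset (Fin n)} {w : Fin n}
    (h : Rep G U W w) : G.card ≤ (U.card + 1) * U.card := by
  classical
  have hsub : G ⊆ ((insert w U) ×ˢ U).image (fun p => s(p.1, p.2)) := by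
    intro e he
    rw [Finset.mem_image]
    rcases (h.2.2 e).1 he with ⟨x, hx, y, hy, hxy, rfl⟩ | ⟨v, hv, rfl⟩
    · exact ⟨(x, y), by simp [hx, hy], rfl⟩
    · exact ⟨(w, v), by simp [h.2.1 hv], rfl⟩
  refine (Finset.card_le_card hsub).trans (Finset.card_image_le.trans ?_)
  rw [Finset.card_product, Finset.card_insert_of_notMem h.1]

/-- a safe move of Avoider creates many threats -/
theorem Rep.removeEnds_card {G : Finset (Sym2 (Fin n))} {U W : Finset (Fin n)} {w x y : Fin n}
    (h : Rep G U W w) (hxy : s(x,y) ∈ G) :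
    (G.filter (fun e => x ∉ e ∧ y ∉ e)).card + 1 + (U.card - 2) ≤ G.card := by
  classical
  wlog hy : y ∈ U generalizing x y with H
  · have hx : x ∈ U := by
      rcases (h.2.2 _).1 hxy with ⟨a, ha, c, hc, hac, he⟩ | ⟨v, hv, he⟩
      · rw [Sym2.eq_iff] at he
        rcases he with ⟨rfl, rfl⟩ | ⟨rfl, rfl⟩
        · exact absurd hc hy
        · exact absurd ha hy
      · rw [Sym2.eq_iff] at he
        rcases he with ⟨rfl, rfl⟩ | ⟨rfl, rfl⟩
        · exact absurd (h.2.1 hv) hy
        · exact h.2.1 hv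
    have := H (x := y) (y := x) (by rw [Sym2.eq_swap]; exact hxy) hx
    have heq : G.filter (fun e => x ∉ e ∧ y ∉ e) = G.filter (fun e => y ∉ e ∧ x ∉ e) := by
      apply Finset.filter_congr
      intro e _
      tauto
    rw [heq]
    exact this
  have hd1 : Disjoint (G.filter (fun e => x ∉ e ∧ y ∉ e)) {s(x,y)} := by
    rw [Finset.disjoint_singleton_right, Finset.mem_filter]
    simp
  set N := ((U \ {x, y}).image (fun v => s(y,v))) with hN
  have hNc : N.card = (U \ {x, y}).card := by
    rw [hN]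
    apply Finset.card_image_of_injective
    intro a c hac
    exact Sym2.congr_right.1 hac
  have hd2 : Disjoint ((G.filter (fun e => x ∉ e ∧ y ∉ e)) ∪ {s(x,y)}) N := by
    rw [Finset.disjoint_left]
    intro e he heN
    rw [hN, Finset.mem_image] at heN
    obtain ⟨v, hv, rfl⟩ := heN
    simp only [Finset.mem_sdiff, Finset.mem_insert, Finset.mem_singleton, not_or] at hv
    rw [Finset.mem_union, Finset.mem_filter, Finset.mem_singleton] at he
    rcases he with ⟨_, _, he⟩ | he
    · simp at he
    · rw [Sym2.eq_iff] at he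
      rcases he with ⟨rfl, rfl⟩ | ⟨_, rfl⟩
      · exact hv.2.2 rfl
      · exact hv.2.1 rfl
  have hsub : (G.filter (fun e => x ∉ e ∧ y ∉ e)) ∪ {s(x,y)} ∪ N ⊆ G := by
    intro e he
    rw [Finset.mem_union, Finset.mem_union, Finset.mem_filter, Finset.mem_singleton] at he
    rcases he with (⟨he, _⟩ | rfl) | he
    · exact he
    · exact hxy
    · rw [hN, Finset.mem_image] at he
      obtain ⟨v, hv, rfl⟩ := he
      simp only [Finset.mem_sdiff, Finset.mem_insert, Finset.mem_singleton, not_or] at hv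
      exact (h.2.2 _).2 (Or.inl ⟨y, hy, v, hv.1, fun h => hv.2.2 h.symm, rfl⟩)
  have hcard := Finset.card_le_card hsub
  rw [Finset.card_union_of_disjoint hd2, Finset.card_union_of_disjoint hd1,
    Finset.card_singleton, hNc] at hcard
  have h2 : U.card - 2 ≤ (U \ {x, y}).card := by
    have := Finset.le_card_sdiff ({x, y} : Finset (Fin n)) U
    have h3 : ({x, y} : Finset (Fin n)).card ≤ 2 := Finset.card_le_two
    omega
  omega

theorem filter_ends_card (G : Finset (Sym2 (Fin n))) (x y : Fin n) :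
    G.card ≤ (G.filter (fun e => x ∉ e ∧ y ∉ e)).card + 2 * n := by
  classical
  have hsub : G ⊆ (G.filter (fun e => x ∉ e ∧ y ∉ e)) ∪
      ((univ.image (fun v => s(x,v))) ∪ (univ.image (fun v => s(y,v)))) := by
    intro e he
    simp only [Finset.mem_union, Finset.mem_filter, Finset.mem_image, Finset.mem_univ, true_and]
    by_cases hx : x ∈ e
    · right; left
      obtain ⟨v, rfl⟩ := hx
      exact ⟨v, rfl⟩
    · by_cases hy : y ∈ e
      · right; right
        obtain ⟨v, rfl⟩ := hy
        exact ⟨v, rfl⟩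
      · left
        exact ⟨he, hx, hy⟩
  refine (Finset.card_le_card hsub).trans ((Finset.card_union_le _ _).trans ?_)
  have h1 := Finset.card_union_le ((univ : Finset (Fin n)).image (fun v => s(x,v)))
    ((univ : Finset (Fin n)).image (fun v => s(y,v)))
  have h2 : ((univ : Finset (Fin n)).image (fun v => s(x,v))).card ≤ n :=
    Finset.card_image_le.trans (by simp)
  have h3 : ((univ : Finset (Fin n)).image (fun v => s(y,v))).card ≤ n :=
    Finset.card_image_le.trans (by simp)
  omega

/-! ### the game -/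

theorem HasCherry.mono {A A' : Finset (Sym2 (Fin n))} (h : HasCherry A) (hs : A ⊆ A') :
    HasCherry A' := by
  obtain ⟨x, y, z, h1, h2, h3, h4, h5⟩ := h
  exact ⟨x, y, z, h1, h2, h3, hs h4, hs h5⟩

theorem win_of_cherry {b : ℕ} {W : Finset (Sym2 (Fin n)) → Prop} (hW : ∀ A, HasCherry A → W A) :
    ∀ (k : ℕ) (A F : Finset (Sym2 (Fin n))), HasCherry A → EnforcerWinsFrom b W k A F := by
  intro k
  induction k with
  | zero => intro A F h; exact hW _ h
  | succ k ih =>
    intro A F h
    refine ⟨fun _ => hW _ h, fun e _ => ?_⟩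
    obtain ⟨B, hB, hBc⟩ := Finset.exists_subset_card_eq (s := F.erase e)
      (min_le_right b (F.erase e).card)
    exact ⟨B, hB, hBc, ih _ _ (h.mono (Finset.subset_insert _ _))⟩

noncomputable def Dang (A F : Finset (Sym2 (Fin n))) : Finset (Sym2 (Fin n)) := by
  classical
  exact F.filter (fun e => ∃ v ∈ e, Touch A v)

noncomputable def Safe (A F : Finset (Sym2 (Fin n))) : Finset (Sym2 (Fin n)) := by
  classical
  exact F.filter (fun e => ¬ ∃ v ∈ e, Touch A v)

theorem mem_Dang {A F : Finset (Sym2 (Fin n))} {e : Sym2 (Fin n)} :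
    e ∈ Dang A F ↔ e ∈ F ∧ ∃ v ∈ e, Touch A v := by
  simp [Dang]

theorem mem_Safe {A F : Finset (Sym2 (Fin n))} {e : Sym2 (Fin n)} :
    e ∈ Safe A F ↔ e ∈ F ∧ ¬ ∃ v ∈ e, Touch A v := by
  simp [Safe]

theorem card_Dang_add_Safe (A F : Finset (Sym2 (Fin n))) :
    (Dang A F).card + (Safe A F).card = F.card := by
  classical
  unfold Dang Safe
  exact Finset.card_filter_add_card_filter_not (fun e => ∃ v ∈ e, Touch A v)

structure Legal (A F : Finset (Sym2 (Fin n))) : Prop where
  disj : Disjoint A F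
  dA : ∀ e ∈ A, ¬ e.IsDiag
  dF : ∀ e ∈ F, ¬ e.IsDiag

theorem Legal.step {A F : Finset (Sym2 (Fin n))} (h : Legal A F) {e : Sym2 (Fin n)} (he : e ∈ F)
    (B : Finset (Sym2 (Fin n))) : Legal (insert e A) ((F.erase e) \ B) where
  disj := by
    rw [Finset.disjoint_insert_left]
    constructor
    · simp
    · exact h.disj.mono_right (Finset.sdiff_subset.trans (Finset.erase_subset _ _))
  dA := by
    intro f hf
    rw [Finset.mem_insert] at hf
    rcases hf with rfl | hf
    · exact h.dF _ he
    · exact h.dA _ hf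
  dF := by
    intro f hf
    exact h.dF f (Finset.mem_of_mem_erase (Finset.sdiff_subset hf))

theorem Legal.cherry {A F : Finset (Sym2 (Fin n))} (h : Legal A F) {e : Sym2 (Fin n)}
    (he : e ∈ Dang A F) : HasCherry (insert e A) := by
  rw [mem_Dang] at he
  obtain ⟨heF, v, hv, e', he', hv'⟩ := he
  have hd := h.dF _ heF
  have hd' := h.dA _ he'
  have hne : e' ≠ e := fun hcon => Finset.disjoint_left.1 h.disj he' (hcon ▸ heF)
  obtain ⟨x, rfl⟩ := hv
  obtain ⟨y, rfl⟩ := hv'
  refine ⟨x, v, y, ?_, ?_, ?_, ?_, ?_⟩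
  · intro hcon; apply hd; simp [hcon]
  · intro hcon; apply hd'; simp [hcon]
  · rintro rfl; exact hne rfl
  · rw [Finset.mem_insert]; left; exact Sym2.eq_swap
  · rw [Finset.mem_insert]; right; exact he'

theorem Dang_mono {A A' F : Finset (Sym2 (Fin n))} (h : A ⊆ A') : Dang A F ⊆ Dang A' F := by
  intro e he
  rw [mem_Dang] at he ⊢
  obtain ⟨h1, v, hv, f, hf, hvf⟩ := he
  exact ⟨h1, v, hv, f, h hf, hvf⟩

theorem Dang_erase_safe {A F : Finset (Sym2 (Fin n))} {e : Sym2 (Fin n)} (he : e ∈ Safe A F) :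
    Dang A F ⊆ Dang (insert e A) (F.erase e) := by
  intro f hf
  have hf' := Dang_mono (Finset.subset_insert e A) hf
  rw [mem_Dang] at hf' ⊢
  refine ⟨Finset.mem_erase.2 ⟨?_, hf'.1⟩, hf'.2⟩
  rintro rfl
  rw [mem_Safe] at he
  rw [mem_Dang] at hf
  exact he.2 hf.2

theorem win_E1 {b : ℕ} {W : Finset (Sym2 (Fin n)) → Prop} (hW : ∀ A, HasCherry A → W A) :
    ∀ (k : ℕ) (A F : Finset (Sym2 (Fin n))), Legal A F → F.card ≤ k →
      (b + 1 ≤ (Dang A F).card ∨ (Safe A F = ∅ ∧ 1 ≤ (Dang A F).card)) →
      EnforcerWinsFrom b W k A F := by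
  classical
  intro k
  induction k with
  | zero =>
    intro A F _ hk h
    exfalso
    have := card_Dang_add_Safe A F
    omega
  | succ k ih =>
    intro A F hL hk h
    have hds := card_Dang_add_Safe A F
    refine ⟨?_, ?_⟩
    · rintro rfl
      exfalso
      simp only [Finset.card_empty] at hds
      omega
    · intro e he
      by_cases hed : e ∈ Dang A F
      · obtain ⟨B, hB, hBc⟩ := Finset.exists_subset_card_eq (s := F.erase e)
          (min_le_right b (F.erase e).card)
        exact ⟨B, hB, hBc, win_of_cherry hW _ _ _ (hL.cherry hed)⟩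
      · have hes : e ∈ Safe A F := by
          rw [mem_Safe]
          refine ⟨he, fun hcon => hed (mem_Dang.2 ⟨he, hcon⟩)⟩
        have hD : b + 1 ≤ (Dang A F).card := by
          rcases h with h | ⟨h, _⟩
          · exact h
          · rw [h] at hes
            simp at hes
        set A' := insert e A with hA'
        set F1 := F.erase e with hF1
        have hD1 : (Dang A F).card ≤ (Dang A' F1).card := Finset.card_le_card (Dang_erase_safe hes)
        have hds1 := card_Dang_add_Safe A' F1
        have hF1c : F1.card + 1 = F.card := by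
          rw [hF1, Finset.card_erase_of_mem he]
          have := Finset.card_pos.2 ⟨e, he⟩
          omega
        have hmin : min b F1.card = b := by omega
        have hSsub : Safe A' F1 ⊆ F1 := fun f hf => (mem_Safe.1 hf).1
        by_cases hS : b ≤ (Safe A' F1).card
        · obtain ⟨B, hB, hBc⟩ := Finset.exists_subset_card_eq hS
          refine ⟨B, hB.trans hSsub, by rw [hmin, hBc], ?_⟩
          refine ih _ _ (hL.step he B) ?_ (Or.inl ?_)
          · have := Finset.card_le_card (Finset.sdiff_subset (s := F1) (t := B))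
            omega
          · refine hD.trans (hD1.trans (Finset.card_le_card ?_))
            intro f hf
            rw [mem_Dang] at hf ⊢
            refine ⟨Finset.mem_sdiff.2 ⟨hf.1, fun hcon => ?_⟩, hf.2⟩
            exact (mem_Safe.1 (hB hcon)).2 hf.2
        · push Not at hS
          obtain ⟨B, hSB, hBF, hBc⟩ := Finset.exists_subsuperset_card_eq hSsub hS.le
            (show b ≤ F1.card by omega)
          refine ⟨B, hBF, by rw [hmin, hBc], ?_⟩
          have hcF' : (F1 \ B).card = F1.card - b := by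
            rw [Finset.card_sdiff_of_subset hBF, hBc]
          have hsafe : Safe A' (F1 \ B) = ∅ := by
            rw [Finset.eq_empty_iff_forall_notMem]
            intro f hf
            rw [mem_Safe, Finset.mem_sdiff] at hf
            exact hf.1.2 (hSB (mem_Safe.2 ⟨hf.1.1, hf.2⟩))
          refine ih _ _ (hL.step he B) ?_ (Or.inr ⟨hsafe, ?_⟩)
          · omega
          · have := card_Dang_add_Safe A' (F1 \ B)
            rw [hsafe, Finset.card_empty] at this
            omega

theorem Safe_insert {A F : Finset (Sym2 (Fin n))} (x y : Fin n) :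
    Safe (insert s(x,y) A) (F.erase s(x,y)) = (Safe A F).filter (fun e => x ∉ e ∧ y ∉ e) := by
  ext f
  rw [Finset.mem_filter, mem_Safe, mem_Safe]
  constructor
  · rintro ⟨h1, h2⟩
    refine ⟨⟨Finset.mem_of_mem_erase h1, ?_⟩, ?_, ?_⟩
    · rintro ⟨v, hv, g, hg, hvg⟩
      exact h2 ⟨v, hv, g, Finset.mem_insert_of_mem hg, hvg⟩
    · intro hx
      exact h2 ⟨x, hx, s(x,y), Finset.mem_insert_self _ _, by simp⟩
    · intro hy
      exact h2 ⟨y, hy, s(x,y), Finset.mem_insert_self _ _, by simp⟩
  · rintro ⟨⟨h1, h2⟩, hx, hy⟩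
    refine ⟨Finset.mem_erase.2 ⟨?_, h1⟩, ?_⟩
    · rintro rfl
      exact hx (by simp)
    · rintro ⟨v, hv, g, hg, hvg⟩
      rw [Finset.mem_insert] at hg
      rcases hg with rfl | hg
      · rw [mem_sym2_ne] at hvg
        rcases hvg with rfl | rfl
        · exact hx hv
        · exact hy hv
      · exact h2 ⟨v, hv, g, hg, hvg⟩

theorem win_E2 {b m : ℕ} {W : Finset (Sym2 (Fin n)) → Prop} (hW : ∀ A, HasCherry A → W A) :
    ∀ (j k : ℕ) (A F : Finset (Sym2 (Fin n))), Legal A F → F.card ≤ k → Str (Safe A F) →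
      b + 1 ≤ (Dang A F).card + j * m →
      (m + 2) ^ 2 + j * (b + 1 + 2 * n) ≤ (Safe A F).card →
      EnforcerWinsFrom b W k A F := by
  classical
  intro j
  induction j with
  | zero =>
    intro k A F hL hk _ hD _
    exact win_E1 hW k A F hL hk (Or.inl (by simpa using hD))
  | succ j ih =>
    intro k A F hL hk hS hD hC
    by_cases hD' : b + 1 ≤ (Dang A F).card
    · exact win_E1 hW k A F hL hk (Or.inl hD')
    have hds := card_Dang_add_Safe A F
    have hpos : 0 < (m + 2) ^ 2 := by positivity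
    have hC' : (m + 2) ^ 2 + j * (b + 1 + 2 * n) + (b + 1 + 2 * n) ≤ (Safe A F).card := by
      calc _ = (m + 2) ^ 2 + (j + 1) * (b + 1 + 2 * n) := by ring
        _ ≤ _ := hC
    cases k with
    | zero => omega
    | succ k =>
      refine ⟨?_, ?_⟩
      · rintro rfl
        exfalso
        simp only [Finset.card_empty] at hds
        omega
      · intro e he
        by_cases hed : e ∈ Dang A F
        · obtain ⟨B, hB, hBc⟩ := Finset.exists_subset_card_eq (s := F.erase e)
            (min_le_right b (F.erase e).card)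
          exact ⟨B, hB, hBc, win_of_cherry hW _ _ _ (hL.cherry hed)⟩
        · have hes : e ∈ Safe A F := by
            rw [mem_Safe]
            refine ⟨he, fun hcon => hed (mem_Dang.2 ⟨he, hcon⟩)⟩
          induction e using Sym2.ind with
          | _ x y =>
          set A' := insert s(x,y) A with hA'
          set F1 := F.erase s(x,y) with hF1
          have hSafe1 : Safe A' F1 = (Safe A F).filter (fun e => x ∉ e ∧ y ∉ e) := Safe_insert x y
          have hStr1 : Str (Safe A' F1) := by rw [hSafe1]; exact hS.removeEnds x y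
          have hc1 := filter_ends_card (Safe A F) x y
          rw [← hSafe1] at hc1
          obtain ⟨U, W', w, hR⟩ := hS
          have hc2 := hR.removeEnds_card hes
          rw [← hSafe1] at hc2
          have hU : m + 2 ≤ U.card := by
            by_contra hcon
            push Not at hcon
            have h1 := hR.card_le
            have h2 : (U.card + 1) * U.card ≤ (m + 2) * (m + 2) :=
              Nat.mul_le_mul (by omega) (by omega)
            have h3 : (m + 2) ^ 2 = (m + 2) * (m + 2) := by ring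
            omega
          obtain ⟨B, hB, hBc, hStr2⟩ := hStr1.exists_remove b (by omega)
          have hSsub : Safe A' F1 ⊆ F1 := fun f hf => (mem_Safe.1 hf).1
          have hds1 := card_Dang_add_Safe A' F1
          have hF1c : F1.card + 1 = F.card := by
            rw [hF1, Finset.card_erase_of_mem he]
            have := Finset.card_pos.2 ⟨_, he⟩
            omega
          have hmin : min b F1.card = b := by omega
          have hSafe2 : Safe A' (F1 \ B) = Safe A' F1 \ B := by
            ext f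
            rw [mem_Safe, Finset.mem_sdiff, Finset.mem_sdiff, mem_Safe]
            tauto
          have hcS2 : (Safe A' (F1 \ B)).card = (Safe A' F1).card - b := by
            rw [hSafe2, Finset.card_sdiff_of_subset hB, hBc]
          have hcF2 : (F1 \ B).card = F1.card - b := by
            rw [Finset.card_sdiff_of_subset (hB.trans hSsub), hBc]
          have hds2 := card_Dang_add_Safe A' (F1 \ B)
          refine ⟨B, hB.trans hSsub, by rw [hmin, hBc], ?_⟩
          refine ih k _ _ (hL.step he B) (by omega) (by rw [hSafe2]; exact hStr2) ?_ ?_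
          · have : (j + 1) * m = j * m + m := by ring
            omega
          · omega

theorem str_all (hn : 1 ≤ n) : Str (allEdges n) := by
  classical
  let w : Fin n := ⟨0, hn⟩
  refine ⟨univ.erase w, univ.erase w, w, Finset.notMem_erase _ _, Finset.Subset.refl _, ?_⟩
  intro e
  induction e using Sym2.ind with
  | _ x y =>
    have h0 : s(x,y) ∈ allEdges n ↔ x ≠ y := by simp [allEdges]
    rw [h0]
    constructor
    · intro hxy
      by_cases hx : x = w
      · right
        exact ⟨y, Finset.mem_erase.2 ⟨fun h => hxy (hx.trans h.symm), Finset.mem_univ _⟩, by rw [hx]⟩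
      · by_cases hy : y = w
        · right
          exact ⟨x, Finset.mem_erase.2 ⟨hx, Finset.mem_univ _⟩, by rw [hy]; exact Sym2.eq_swap⟩
        · left
          exact ⟨x, Finset.mem_erase.2 ⟨hx, Finset.mem_univ _⟩, y,
            Finset.mem_erase.2 ⟨hy, Finset.mem_univ _⟩, hxy, rfl⟩
    · rintro (⟨a, _, c, _, hac, he⟩ | ⟨v, hv, he⟩)
      · rw [Sym2.eq_iff] at he
        rcases he with ⟨rfl, rfl⟩ | ⟨rfl, rfl⟩
        · exact hac
        · exact hac.symm
      · have hv' := Finset.ne_of_mem_erase hv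
        rw [Sym2.eq_iff] at he
        rcases he with ⟨rfl, rfl⟩ | ⟨rfl, rfl⟩
        · exact hv'.symm
        · exact hv'

theorem enforcer_wins {b m j : ℕ} (hn : 1 ≤ n) {W : Finset (Sym2 (Fin n)) → Prop}
    (hW : ∀ A, HasCherry A → W A) (h1 : b + 1 ≤ j * m)
    (h2 : (m + 2) ^ 2 + j * (b + 1 + 2 * n) ≤ (allEdges n).card) :
    EnforcerWinsFrom b W (allEdges n).card ∅ (allEdges n) := by
  have hS : Safe ∅ (allEdges n) = allEdges n := by
    ext f
    rw [mem_Safe]
    constructor
    · exact fun h => h.1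
    · intro h
      refine ⟨h, ?_⟩
      rintro ⟨v, _, g, hg, _⟩
      simp at hg
  refine win_E2 (m := m) hW j _ _ _ ⟨Finset.disjoint_empty_left _, by simp, ?_⟩ le_rfl ?_ ?_ ?_
  · intro e he
    simpa [allEdges] using he
  · rw [hS]; exact str_all hn
  · omega
  · rw [hS]; exact h2

end Pool.Agent.AE
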