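import Pool.Agent.AE.P3
import Pool.Agent.AE.Div

set_option autoImplicit false

namespace Pool.Agent.AE

open Finset

theorem two_T (n : ℕ) : 2 * (n * (n - 1) / 2) = n * (n - 1) :=
  Nat.mul_div_cancel' (Nat.even_mul_pred_self n).two_dvd

/-- Avoider wins for all biases `b` with `n^3 ≤ K (b+1)^2`. -/
theorem avoider_asym {n K : ℕ} (hK : 1 ≤ K) (hn1 : 16 * K ^ 3 ≤ n)
    (hn2 : 4 * (K * (K + 1)) + 4 ≤ n)
    (hnt : ∀ r, 1 ≤ r → r ≤ K * (K + 1) → ∀ k, n ≤ 16 * k ^ 2 → k ^ 2 ≤ K * n →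
      ¬ k ∣ n * (n - 1) / 2 - r) {b : ℕ} (hb : n ^ 3 ≤ K * (b + 1) ^ 2) :
    ¬ EnforcerWins K3 n b := by
  have hn0 : 0 < n := by omega
  obtain ⟨T, hT⟩ : ∃ T, T = n * (n - 1) / 2 := ⟨_, rfl⟩
  have h2T : 2 * T = n * (n - 1) := by rw [hT]; exact two_T n
  have hTle : T ≤ n ^ 2 := by
    have : n * (n - 1) ≤ n * n := Nat.mul_le_mul_left _ (Nat.sub_le _ _)
    nlinarith
  have hb0 : 0 < (b + 1) ^ 2 := by positivity
  -- bound for numbers q with q (b+1) ≤ T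
  have hq : ∀ q, q * (b + 1) ≤ T → q ^ 2 ≤ K * n := by
    intro q hq
    have h1 : (q * (b + 1)) ^ 2 ≤ (n ^ 2) ^ 2 := Nat.pow_le_pow_left (hq.trans hTle) 2
    have h2 : q ^ 2 * n ^ 3 ≤ (K * n) * n ^ 3 := by
      calc q ^ 2 * n ^ 3 ≤ q ^ 2 * (K * (b + 1) ^ 2) := Nat.mul_le_mul_left _ hb
        _ = K * (q * (b + 1)) ^ 2 := by ring
        _ ≤ K * (n ^ 2) ^ 2 := Nat.mul_le_mul_left _ h1
        _ = (K * n) * n ^ 3 := by ring
    exact Nat.le_of_mul_le_mul_right h2 (by positivity)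
  apply avoider_wins
  · rw [← hT]
    have h1 := hq (T / (b + 1)) (Nat.div_mul_le_self _ _)
    have h2 : (4 * (K * n)) ^ 2 ≤ (b + 1) ^ 2 := by
      have h3 : K * (4 * (K * n)) ^ 2 ≤ K * (b + 1) ^ 2 := by
        calc K * (4 * (K * n)) ^ 2 = (16 * K ^ 3) * n ^ 2 := by ring
          _ ≤ n * n ^ 2 := Nat.mul_le_mul_right _ hn1
          _ = n ^ 3 := by ring
          _ ≤ _ := hb
      exact Nat.le_of_mul_le_mul_left h3 (by omega)
    have h4 : 4 * (K * n) ≤ b + 1 := (Nat.pow_le_pow_iff_left (by norm_num)).1 h2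
    omega
  · rw [← hT]
    intro q r p hqr hr1 hrb hp
    by_contra hcon
    push Not at hcon
    have hp1 : 1 ≤ p := by
      rcases Nat.eq_zero_or_pos p with rfl | h
      · simp at hcon; omega
      · exact h
    have hpK : p ≤ K := by
      have : p * (b + 1) ^ 2 ≤ K * (b + 1) ^ 2 := hp.trans hb
      exact Nat.le_of_mul_le_mul_right this hb0
    have hrR : r ≤ K * (K + 1) := hcon.trans (Nat.mul_le_mul hpK (by omega))
    have hb3 : (b + 1) ^ 2 ≤ n ^ 3 := by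
      calc (b + 1) ^ 2 = 1 * (b + 1) ^ 2 := (one_mul _).symm
        _ ≤ p * (b + 1) ^ 2 := Nat.mul_le_mul_right _ hp1
        _ ≤ _ := hp
    have hqT : q * (b + 1) = T - r := by omega
    refine hnt r hr1 hrR q ?_ (hq q (by omega)) ?_
    · -- n ≤ 16 q^2
      have h1 : n ^ 2 ≤ 4 * (q * (b + 1)) := by
        obtain ⟨m, rfl⟩ : ∃ m, n = m + 1 := ⟨n - 1, by omega⟩
        simp only [Nat.add_sub_cancel] at h2T
        have h5 : q * (b + 1) + r = T := hqr.symm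
        have h7 : 4 * (K * (K + 1)) + 3 ≤ m := by omega
        have h8 : m * 3 ≤ m * m := Nat.mul_le_mul_left _ (by omega)
        nlinarith
      have h2 : (n ^ 2) ^ 2 ≤ (4 * (q * (b + 1))) ^ 2 := Nat.pow_le_pow_left h1 2
      have h3 : n * n ^ 3 ≤ (16 * q ^ 2) * n ^ 3 := by
        calc n * n ^ 3 = (n ^ 2) ^ 2 := by ring
          _ ≤ (4 * (q * (b + 1))) ^ 2 := h2
          _ = (16 * q ^ 2) * (b + 1) ^ 2 := by ring
          _ ≤ (16 * q ^ 2) * n ^ 3 := Nat.mul_le_mul_left _ hb3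
      exact Nat.le_of_mul_le_mul_right h3 (by positivity)
    · rw [← hT]
      exact ⟨b + 1, hqT.symm⟩

/-- the upper threshold is small for these `n` -/
theorem upper_le {n K : ℕ} (hK : 1 ≤ K) (hn1 : 16 * K ^ 3 ≤ n)
    (hn2 : 4 * (K * (K + 1)) + 4 ≤ n)
    (hnt : ∀ r, 1 ≤ r → r ≤ K * (K + 1) → ∀ k, n ≤ 16 * k ^ 2 → k ^ 2 ≤ K * n →
      ¬ k ∣ n * (n - 1) / 2 - r) : K * (upperThreshold K3 n) ^ 2 ≤ n ^ 3 := by
  have hS : ∀ b ∈ {b : ℕ | 1 ≤ b ∧ EnforcerWins K3 n b}, K * (b + 1) ^ 2 < n ^ 3 := by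
    intro b hb
    by_contra hcon
    push Not at hcon
    exact avoider_asym hK hn1 hn2 hnt hcon hb.2
  unfold upperThreshold
  rcases Set.eq_empty_or_nonempty {b : ℕ | 1 ≤ b ∧ EnforcerWins K3 n b} with he | hne
  · rw [he]
    simp
  · have hbdd : BddAbove {b : ℕ | 1 ≤ b ∧ EnforcerWins K3 n b} := by
      refine ⟨n ^ 3, fun b hb => ?_⟩
      have h1 := hS b hb
      have h2 : b ≤ K * (b + 1) ^ 2 := by
        calc b ≤ 1 * (b + 1) ^ 2 := by nlinarith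
          _ ≤ K * (b + 1) ^ 2 := Nat.mul_le_mul_right _ hK
      omega
    have h1 := hS _ (Nat.sSup_mem hne hbdd)
    refine le_trans ?_ h1.le
    apply Nat.mul_le_mul_left
    exact Nat.pow_le_pow_left (Nat.le_succ _) 2

theorem lower_params {n b : ℕ} (hn : 40000 ≤ n) (hb : 25 * (b + 1) ^ 2 ≤ n ^ 3) :
    ∃ q j : ℕ, b + 1 ≤ j * q ∧ (q + 2) ^ 2 + j * (b + 1 + 2 * n) ≤ (allEdges n).card := by
  obtain ⟨q, hq⟩ : ∃ q, q = n / 4 := ⟨_, rfl⟩
  have hq1 : 4 * q ≤ n := by omega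
  have hq2 : n ≤ 5 * q := by omega
  have hq0 : 0 < q := by omega
  refine ⟨q, (b + 1) / q + 1, ?_, ?_⟩
  · have := Nat.lt_div_mul_add (a := b + 1) hq0
    nlinarith
  · rw [card_allEdges]
    have h2T := two_T n
    obtain ⟨T, hT⟩ : ∃ T, T = n * (n - 1) / 2 := ⟨_, rfl⟩
    rw [← hT] at h2T ⊢
    have hn1 : 1 ≤ n := by omega
    have h2T' : (2 : ℝ) * T = n * (n - 1) := by
      have h4 : ((n - 1 : ℕ) : ℝ) = (n : ℝ) - 1 := by
        push_cast [Nat.cast_sub hn1]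
        ring
      rw [← h4]
      exact_mod_cast h2T
    have hnR : (40000 : ℝ) ≤ n := by exact_mod_cast hn
    have hqR1 : (4 : ℝ) * q ≤ n := by exact_mod_cast hq1
    have hqR2 : (n : ℝ) ≤ 5 * q := by exact_mod_cast hq2
    have hqR0 : (0 : ℝ) < q := by exact_mod_cast hq0
    have hbR : (25 : ℝ) * (b + 1) ^ 2 ≤ n ^ 3 := by exact_mod_cast hb
    have hs : ((b : ℝ) + 1) ≤ n ^ 2 / 1000 := by
      apply le_of_sq_le_sq _ (by positivity)
      have : (n : ℝ) ^ 3 * 40000 ≤ n ^ 3 * n := by gcongr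
      nlinarith
    have hj : (((b + 1) / q + 1 : ℕ) : ℝ) ≤ 5 * (b + 1) / n + 1 := by
      push_cast
      have h1 : (((b + 1) / q : ℕ) : ℝ) ≤ ((b + 1 : ℕ) : ℝ) / q := Nat.cast_div_le
      have h2 : ((b + 1 : ℕ) : ℝ) / q ≤ 5 * (b + 1) / n := by
        rw [div_le_div_iff₀ hqR0 (by linarith)]
        push_cast
        nlinarith
      linarith
    have hmain : (((q : ℝ) + 2) ^ 2 + (((b + 1) / q + 1 : ℕ) : ℝ) * ((b : ℝ) + 1 + 2 * n)) ≤ T := by
      have hn0 : (0 : ℝ) < n := by linarith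
      have h1 : (((b + 1) / q + 1 : ℕ) : ℝ) * ((b : ℝ) + 1 + 2 * n) ≤
          (5 * (b + 1) / n + 1) * ((b : ℝ) + 1 + 2 * n) := by gcongr
      have h2 : (5 * ((b : ℝ) + 1) / n + 1) * ((b : ℝ) + 1 + 2 * n) =
          5 * (b + 1) ^ 2 / n + 11 * (b + 1) + 2 * n := by
        field_simp
        ring
      have h3 : 5 * ((b : ℝ) + 1) ^ 2 / n ≤ n ^ 2 / 5 := by
        rw [div_le_iff₀ hn0]
        nlinarith
      have h4 : ((q : ℝ) + 2) ^ 2 ≤ (n / 4 + 2) ^ 2 := by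
        gcongr
        linarith
      have h5 : (n : ℝ) * 40000 ≤ n ^ 2 := by nlinarith
      nlinarith
    have : (((q + 2) ^ 2 + ((b + 1) / q + 1) * (b + 1 + 2 * n) : ℕ) : ℝ) ≤ (T : ℝ) := by
      push_cast at hmain ⊢
      exact hmain
    exact_mod_cast this

theorem lower_ge {n : ℕ} (hn : 40000 ≤ n) : n ^ 3 ≤ 100 * (maxLower K3 n) ^ 2 := by
  obtain ⟨m, hm⟩ : ∃ m, m = Nat.sqrt (n ^ 3 / 25) := ⟨_, rfl⟩
  have hm1 : m * m ≤ n ^ 3 / 25 := by rw [hm]; exact Nat.sqrt_le _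
  have hm2 : n ^ 3 / 25 < (m + 1) * (m + 1) := by rw [hm]; exact Nat.lt_succ_sqrt _
  have hn3 : 40000 * 40000 * 40000 ≤ n ^ 3 := by
    calc 40000 * 40000 * 40000 = 40000 ^ 3 := by norm_num
      _ ≤ n ^ 3 := Nat.pow_le_pow_left hn 3
  have hm3 : 3 ≤ m := by
    by_contra hcon
    push Not at hcon
    have h1 : (m + 1) * (m + 1) ≤ 3 * 3 := Nat.mul_le_mul (by omega) (by omega)
    omega
  have hT1 : 1 ≤ (allEdges n).card := by
    rw [card_allEdges]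
    have h2T := two_T n
    have : 1 * 2 ≤ n * (n - 1) := Nat.mul_le_mul (by omega) (by omega)
    omega
  have hlow : m - 1 ≤ maxLower K3 n := by
    apply maxLower_ge hT1
    intro b hb hbm
    apply lower_params hn
    have h1 : (b + 1) * (b + 1) ≤ m * m := Nat.mul_le_mul (by omega) (by omega)
    have h2 : (b + 1) ^ 2 = (b + 1) * (b + 1) := by ring
    omega
  have h1 : m + 1 ≤ 2 * maxLower K3 n := by omega
  have h2 : (m + 1) * (m + 1) ≤ (2 * maxLower K3 n) * (2 * maxLower K3 n) := Nat.mul_le_mul h1 h1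
  have h3 : (2 * maxLower K3 n) * (2 * maxLower K3 n) = 4 * (maxLower K3 n) ^ 2 := by ring
  omega

/-- For every `c > 0` there are arbitrarily large `n` with `f⁺_{K₃}(n) < c · max_e f⁻_{K₃-e}(n)`. -/
theorem ratio_small (c : ℝ) (hc : 0 < c) (N : ℕ) : ∃ n, N ≤ n ∧
    (upperThreshold K3 n : ℝ) < c * (maxLower K3 n : ℝ) := by
  obtain ⟨K, hKc⟩ := exists_nat_gt (max 1 (100 / c ^ 2))
  have hK1 : 1 ≤ K := by
    have h1 : (1 : ℝ) < K := lt_of_le_of_lt (le_max_left _ _) hKc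
    exact_mod_cast h1.le
  have hK2 : 100 / c ^ 2 < K := lt_of_le_of_lt (le_max_right _ _) hKc
  obtain ⟨n, hn, hnt⟩ := no_divisor (K * (K + 1)) K
    (N + 40000 + 16 * K ^ 3 + (4 * (K * (K + 1)) + 4))
  refine ⟨n, by omega, ?_⟩
  have hu := upper_le hK1 (by omega) (by omega) hnt
  have hl := lower_ge (n := n) (by omega)
  have hpos : 0 < maxLower K3 n := by
    rcases Nat.eq_zero_or_pos (maxLower K3 n) with h | h
    · rw [h] at hl
      have : 0 < n ^ 3 := Nat.pow_pos (by omega)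
      omega
    · exact h
  have huR : (K : ℝ) * (upperThreshold K3 n : ℝ) ^ 2 ≤ (n : ℝ) ^ 3 := by exact_mod_cast hu
  have hlR : (n : ℝ) ^ 3 ≤ 100 * (maxLower K3 n : ℝ) ^ 2 := by exact_mod_cast hl
  have hposR : (0 : ℝ) < (maxLower K3 n : ℝ) := by exact_mod_cast hpos
  rw [div_lt_iff₀ (by positivity)] at hK2
  have hKR : (1 : ℝ) ≤ K := by exact_mod_cast hK1
  apply lt_of_pow_lt_pow_left₀ 2 (by positivity)
  have h1 : (K : ℝ) * (upperThreshold K3 n : ℝ) ^ 2 < K * (c * (maxLower K3 n : ℝ)) ^ 2 := by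
    calc (K : ℝ) * (upperThreshold K3 n : ℝ) ^ 2 ≤ 100 * (maxLower K3 n : ℝ) ^ 2 := huR.trans hlR
      _ < (K * c ^ 2) * (maxLower K3 n : ℝ) ^ 2 := by gcongr
      _ = _ := by ring
  exact lt_of_mul_lt_mul_left h1 (by positivity)

end Pool.Agent.AE
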