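import Mathlib

set_option autoImplicit false

namespace Pool.Agent.AE

open Finset

/-- sum of reciprocals of the primes in `(x, y]` -/
noncomputable def pr (x y : ℕ) : ℝ := ∑ p ∈ (Ioc x y).filter Nat.Prime, (1 : ℝ) / p

theorem pr_nonneg (x y : ℕ) : 0 ≤ pr x y := Finset.sum_nonneg (fun _ _ => by positivity)

theorem pr_mono {x x' y y' : ℕ} (h1 : x' ≤ x) (h2 : y ≤ y') : pr x y ≤ pr x' y' := by
  apply Finset.sum_le_sum_of_subset_of_nonneg
  · exact Finset.filter_subset_filter _ (Finset.Ioc_subset_Ioc h1 h2)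
  · intro _ _ _
    positivity

theorem pr_add {x y z : ℕ} (h1 : x ≤ y) (h2 : y ≤ z) : pr x z = pr x y + pr y z := by
  unfold pr
  rw [← Finset.sum_union]
  · congr 1
    ext p
    simp only [Finset.mem_union, Finset.mem_filter, Finset.mem_Ioc]
    constructor
    · rintro ⟨⟨h3, h4⟩, h5⟩
      rcases le_or_gt p y with h | h
      · exact Or.inl ⟨⟨h3, h⟩, h5⟩
      · exact Or.inr ⟨⟨h, h4⟩, h5⟩
    · rintro (⟨⟨h3, h4⟩, h5⟩ | ⟨⟨h3, h4⟩, h5⟩)
      · exact ⟨⟨h3, h4.trans h2⟩, h5⟩
      · exact ⟨⟨h1.trans_lt h3, h4⟩, h5⟩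
  · rw [Finset.disjoint_left]
    intro p hp hp'
    simp only [Finset.mem_filter, Finset.mem_Ioc] at hp hp'
    omega

theorem pr_dyadic {x l : ℕ} (hl : 1 ≤ l) (hx : 2 ^ l ≤ x) : pr x (2 * x) ≤ 4 / l := by
  have hx1 : 1 ≤ x := le_trans Nat.one_le_two_pow hx
  have hx0 : (0 : ℝ) < x := by exact_mod_cast hx1
  have hl0 : (0 : ℝ) < l := by exact_mod_cast hl
  have hlog2 : 0 < Real.log 2 := Real.log_pos (by norm_num)
  have hlogx : (l : ℝ) * Real.log 2 ≤ Real.log x := by
    rw [← Real.log_pow]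
    apply Real.log_le_log (by positivity)
    exact_mod_cast hx
  have hlogx0 : 0 < Real.log x := lt_of_lt_of_le (by positivity) hlogx
  have h1 : pr x (2 * x) ≤ ∑ p ∈ (Ioc x (2 * x)).filter Nat.Prime, Real.log p / (x * Real.log x) := by
    apply Finset.sum_le_sum
    intro p hp
    simp only [Finset.mem_filter, Finset.mem_Ioc] at hp
    have hp0 : (0 : ℝ) < p := by exact_mod_cast hp.2.pos
    have hxp : (x : ℝ) ≤ p := by exact_mod_cast hp.1.1.le
    rw [div_le_div_iff₀ hp0 (by positivity), one_mul]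
    have h2 : Real.log x ≤ Real.log p := Real.log_le_log hx0 hxp
    calc (x : ℝ) * Real.log x ≤ p * Real.log p := by gcongr
      _ = Real.log p * p := mul_comm _ _
  have h2 : ∑ p ∈ (Ioc x (2 * x)).filter Nat.Prime, Real.log p ≤ Real.log 4 * (2 * x) := by
    have h3 := Chebyshev.theta_le_log4_mul_x (x := ((2 * x : ℕ) : ℝ)) (by positivity)
    rw [Chebyshev.theta, Nat.floor_natCast] at h3
    push_cast at h3
    refine le_trans ?_ h3
    apply Finset.sum_le_sum_of_subset_of_nonneg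
    · exact Finset.filter_subset_filter _ (Finset.Ioc_subset_Ioc_left (Nat.zero_le _))
    · intro p _ _
      exact Real.log_natCast_nonneg p
  have h4 : Real.log 4 = 2 * Real.log 2 := by
    rw [show (4 : ℝ) = 2 ^ 2 by norm_num, Real.log_pow]
    norm_num
  calc pr x (2 * x) ≤ _ := h1
    _ = (∑ p ∈ (Ioc x (2 * x)).filter Nat.Prime, Real.log p) / (x * Real.log x) := by
      rw [Finset.sum_div]
    _ ≤ (Real.log 4 * (2 * x)) / (x * (l * Real.log 2)) := by gcongr
    _ = 4 / l := by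
      rw [h4]
      field_simp
      norm_num

theorem pr_multi {x l : ℕ} (hl : 1 ≤ l) (hx : 2 ^ l ≤ x) (c : ℕ) :
    pr x (2 ^ c * x) ≤ c * (4 / l) := by
  induction c with
  | zero => simp [pr]
  | succ c ih =>
    have h1 : x ≤ 2 ^ c * x := Nat.le_mul_of_pos_left _ (by positivity)
    have h2 : 2 ^ c * x ≤ 2 ^ (c + 1) * x := Nat.mul_le_mul_right _ (Nat.pow_le_pow_right (by norm_num) (by omega))
    rw [pr_add h1 h2]
    have h3 : pr (2 ^ c * x) (2 ^ (c + 1) * x) ≤ 4 / l := by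
      have : 2 ^ (c + 1) * x = 2 * (2 ^ c * x) := by ring
      rw [this]
      exact pr_dyadic hl (hx.trans h1)
    push_cast
    linarith

theorem pr_log_aux {a w : ℕ} (ha : 1 ≤ a) (hw : a ≤ w) :
    pr (2 ^ a) (2 ^ (w + 1)) ≤ 4 * (1 + Real.log ((w : ℝ) / a)) := by
  have ha0 : (0 : ℝ) < a := by exact_mod_cast ha
  induction w, hw using Nat.le_induction with
  | base =>
    rw [div_self ha0.ne', Real.log_one]
    have h1 : pr (2 ^ a) (2 ^ (a + 1)) ≤ 4 / a := by
      rw [pow_succ, mul_comm]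
      exact pr_dyadic ha le_rfl
    have h2 : (4 : ℝ) / a ≤ 4 := by
      rw [div_le_iff₀ ha0]
      have : (1 : ℝ) ≤ a := by exact_mod_cast ha
      linarith
    linarith
  | succ w hw ih =>
    have hw0 : (0 : ℝ) < w := by exact_mod_cast (lt_of_lt_of_le ha hw)
    have h1 : pr (2 ^ a) (2 ^ (w + 1 + 1)) = pr (2 ^ a) (2 ^ (w + 1)) + pr (2 ^ (w + 1)) (2 ^ (w + 1 + 1)) :=
      pr_add (Nat.pow_le_pow_right (by norm_num) (by omega)) (Nat.pow_le_pow_right (by norm_num) (by omega))
    have h2 : pr (2 ^ (w + 1)) (2 ^ (w + 1 + 1)) ≤ 4 / ((w + 1 : ℕ) : ℝ) := by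
      rw [pow_succ 2 (w + 1), mul_comm]
      exact pr_dyadic (by omega) le_rfl
    have h3 : 1 / ((w : ℝ) + 1) ≤ Real.log (((w : ℝ) + 1) / w) := by
      have := Real.one_sub_inv_le_log_of_pos (x := ((w : ℝ) + 1) / w) (by positivity)
      refine le_trans (le_of_eq ?_) this
      field_simp
      ring
    have h4 : Real.log (((w + 1 : ℕ) : ℝ) / a) = Real.log ((w : ℝ) / a) + Real.log (((w : ℝ) + 1) / w) := by
      rw [← Real.log_mul (by positivity) (by positivity)]
      congr 1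
      push_cast
      field_simp
    rw [h1, h4]
    have h5 : (4 : ℝ) / ((w + 1 : ℕ) : ℝ) = 4 * (1 / ((w : ℝ) + 1)) := by
      push_cast
      ring
    rw [h5] at h2
    linarith

theorem pr_log {a w : ℕ} (ha : 1 ≤ a) (hw : a ≤ w) :
    pr (2 ^ a) (2 ^ w) ≤ 4 * (1 + Real.log ((w : ℝ) / a)) := by
  refine (pr_mono le_rfl (Nat.pow_le_pow_right (by norm_num) (by omega))).trans (pr_log_aux ha hw)

/-! ### sums over numbers composed of primes of a given set -/

open Classical in
/-- numbers in `[1, X]` all of whose prime factors lie in `Q` -/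
noncomputable def JJ (Q : Finset ℕ) (X : ℕ) : Finset ℕ :=
  (Icc 1 X).filter (fun j => ∀ p, p.Prime → p ∣ j → p ∈ Q)

theorem tau_mul_le {q i : ℕ} (hq : q.Prime) : (q * i).divisors.card ≤ 2 * i.divisors.card := by
  rw [Nat.divisors_mul]
  refine Finset.card_mul_le.trans ?_
  rw [hq.divisors, Finset.card_pair hq.one_lt.ne]

theorem tau_sum_le (Q : Finset ℕ) (hQ : ∀ p ∈ Q, p.Prime) (hQ2 : ∀ p ∈ Q, 4 ≤ p) (X : ℕ) :
    ∑ j ∈ JJ Q X, (j.divisors.card : ℝ) / j ≤ ∏ p ∈ Q, (1 - 2 / (p : ℝ))⁻¹ := by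
  classical
  induction Q using Finset.induction_on with
  | empty =>
    simp only [Finset.prod_empty]
    have hsub : JJ ∅ X ⊆ {1} := by
      intro j hj
      simp only [JJ, Finset.mem_filter, Finset.mem_Icc, Finset.notMem_empty] at hj
      rw [Finset.mem_singleton]
      by_contra hcon
      obtain ⟨p, hp, hpj⟩ := Nat.exists_prime_and_dvd hcon
      exact hj.2 p hp hpj
    refine (Finset.sum_le_sum_of_subset_of_nonneg hsub (fun _ _ _ => by positivity)).trans ?_
    simp
  | insert q Q hqQ ih =>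
    have ih := ih (fun p hp => hQ p (Finset.mem_insert_of_mem hp))
      (fun p hp => hQ2 p (Finset.mem_insert_of_mem hp))
    have hq := hQ q (Finset.mem_insert_self _ _)
    have hq4 : (4 : ℝ) ≤ q := by exact_mod_cast hQ2 q (Finset.mem_insert_self _ _)
    have hq0 : (0 : ℝ) < q := by linarith
    set S := ∑ j ∈ JJ (insert q Q) X, (j.divisors.card : ℝ) / j with hS
    have h1 : S ≤ ∑ j ∈ JJ Q X, (j.divisors.card : ℝ) / j + 2 / q * S := by
      have e1 : S = ∑ j ∈ (JJ (insert q Q) X).filter (fun j => ¬ q ∣ j), (j.divisors.card : ℝ) / j +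
          ∑ j ∈ (JJ (insert q Q) X).filter (fun j => q ∣ j), (j.divisors.card : ℝ) / j := by
        rw [add_comm, hS]
        exact (Finset.sum_filter_add_sum_filter_not _ _ _).symm
      have e2 : ∑ j ∈ (JJ (insert q Q) X).filter (fun j => ¬ q ∣ j), (j.divisors.card : ℝ) / j ≤
          ∑ j ∈ JJ Q X, (j.divisors.card : ℝ) / j := by
        apply Finset.sum_le_sum_of_subset_of_nonneg
        · intro j hj
          simp only [JJ, Finset.mem_filter, Finset.mem_insert] at hj ⊢
          refine ⟨hj.1.1, fun p hp hpj => ?_⟩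
          rcases hj.1.2 p hp hpj with rfl | h
          · exact absurd hpj hj.2
          · exact h
        · intro _ _ _; positivity
      have e3 : ∑ j ∈ (JJ (insert q Q) X).filter (fun j => q ∣ j), (j.divisors.card : ℝ) / j ≤
          2 / q * S := by
        rw [hS, Finset.mul_sum]
        have hinj : ∀ j ∈ (JJ (insert q Q) X).filter (fun j => q ∣ j),
            j / q ∈ JJ (insert q Q) X := by
          intro j hj
          simp only [JJ, Finset.mem_filter, Finset.mem_Icc] at hj ⊢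
          obtain ⟨⟨⟨h2, h3⟩, h4⟩, i, rfl⟩ := hj
          rw [Nat.mul_div_cancel_left _ hq.pos]
          have hi : 1 ≤ i := Nat.pos_of_ne_zero (by rintro rfl; simp at h2)
          refine ⟨⟨hi, le_trans (Nat.le_mul_of_pos_left _ hq.pos) h3⟩, fun p hp hpi => ?_⟩
          exact h4 p hp (Dvd.dvd.mul_left hpi q)
        calc ∑ j ∈ (JJ (insert q Q) X).filter (fun j => q ∣ j), (j.divisors.card : ℝ) / j
            ≤ ∑ j ∈ (JJ (insert q Q) X).filter (fun j => q ∣ j),
              (2 / (q : ℝ) * (((j / q).divisors.card : ℝ) / ((j / q : ℕ) : ℝ))) := by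
              apply Finset.sum_le_sum
              intro j hj
              simp only [JJ, Finset.mem_filter, Finset.mem_Icc] at hj
              obtain ⟨⟨⟨h2, h3⟩, h4⟩, i, rfl⟩ := hj
              rw [Nat.mul_div_cancel_left _ hq.pos]
              have hi : 1 ≤ i := Nat.pos_of_ne_zero (by rintro rfl; simp at h2)
              have hi0 : (0 : ℝ) < i := by exact_mod_cast hi
              have h5 : (((q * i).divisors.card : ℕ) : ℝ) ≤ 2 * (i.divisors.card : ℝ) := by
                exact_mod_cast tau_mul_le (i := i) hq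
              push_cast
              calc ((q * i).divisors.card : ℝ) / (q * i) ≤ 2 * (i.divisors.card : ℝ) / (q * i) := by
                    gcongr
                _ = _ := by field_simp
          _ = ∑ i ∈ ((JJ (insert q Q) X).filter (fun j => q ∣ j)).image (fun j => j / q),
              (2 / (q : ℝ) * ((i.divisors.card : ℝ) / (i : ℝ))) := by
              rw [Finset.sum_image]
              intro j hj j' hj' hjj
              rw [Finset.mem_coe, Finset.mem_filter] at hj hj'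
              have h6 := Nat.div_mul_cancel hj.2
              have h7 := Nat.div_mul_cancel hj'.2
              simp only at hjj
              rw [← h6, hjj, h7]
          _ ≤ _ := by
              apply Finset.sum_le_sum_of_subset_of_nonneg
              · intro i hi
                rw [Finset.mem_image] at hi
                obtain ⟨j, hj, rfl⟩ := hi
                exact hinj j hj
              · intro _ _ _; positivity
      linarith
    rw [Finset.prod_insert hqQ]
    have h2 : 0 < 1 - 2 / (q : ℝ) := by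
      have : 2 / (q : ℝ) ≤ 2 / 4 := by gcongr
      linarith
    have h3 : (1 - 2 / (q : ℝ)) * S ≤ ∏ p ∈ Q, (1 - 2 / (p : ℝ))⁻¹ := by
      have : (1 - 2 / (q : ℝ)) * S = S - 2 / q * S := by ring
      linarith
    calc S = (1 - 2 / (q : ℝ))⁻¹ * ((1 - 2 / (q : ℝ)) * S) := by
          rw [← mul_assoc, inv_mul_cancel₀ h2.ne', one_mul]
      _ ≤ _ := by gcongr

theorem exp_bound {x : ℝ} (h1 : 0 ≤ x) (h2 : x ≤ 1 / 2) : Real.exp (-(2 * x)) ≤ 1 - x := by
  -- exp(-2x) ≤ 1/(1+2x) ≤ 1 - x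
  have h3 : 1 + 2 * x ≤ Real.exp (2 * x) := by
    have := Real.add_one_le_exp (2 * x)
    linarith
  rw [Real.exp_neg, inv_le_comm₀ (Real.exp_pos _) (by linarith)]
  refine le_trans ?_ h3
  rw [inv_le_iff_one_le_mul₀ (by linarith)]
  nlinarith

theorem inv_exp_bound {x : ℝ} (h1 : 0 ≤ x) (h2 : x ≤ 1 / 2) : (1 - x)⁻¹ ≤ Real.exp (2 * x) := by
  have h := exp_bound h1 h2
  rw [Real.exp_neg] at h
  exact (inv_le_comm₀ (Real.exp_pos _) (by linarith)).1 h

theorem tau_sum_le' {l w : ℕ} (hl : 2 ≤ l) (hw : l ≤ w) :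
    ∑ j ∈ JJ ((Ioc (2 ^ l) (2 ^ w)).filter Nat.Prime) (2 ^ w), (j.divisors.card : ℝ) / j ≤
      Real.exp 16 * ((w : ℝ) / l) ^ 16 := by
  have hl0 : (0 : ℝ) < l := by exact_mod_cast (by omega : 0 < l)
  have hw0 : (0 : ℝ) < w := by exact_mod_cast (by omega : 0 < w)
  have h4 : ∀ p ∈ (Ioc (2 ^ l) (2 ^ w)).filter Nat.Prime, 4 ≤ p := by
    intro p hp
    simp only [Finset.mem_filter, Finset.mem_Ioc] at hp
    have : 2 ^ 2 ≤ 2 ^ l := Nat.pow_le_pow_right (by norm_num) hl
    omega
  refine (tau_sum_le _ (fun p hp => (Finset.mem_filter.1 hp).2) h4 _).trans ?_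
  have h5 : ∏ p ∈ (Ioc (2 ^ l) (2 ^ w)).filter Nat.Prime, (1 - 2 / (p : ℝ))⁻¹ ≤
      ∏ p ∈ (Ioc (2 ^ l) (2 ^ w)).filter Nat.Prime, Real.exp (2 * (2 / (p : ℝ))) := by
    apply Finset.prod_le_prod
    · intro p hp
      have hp4 : (4 : ℝ) ≤ p := by exact_mod_cast h4 p hp
      have : 2 / (p : ℝ) ≤ 2 / 4 := by gcongr
      rw [inv_nonneg]
      linarith
    · intro p hp
      have hp4 : (4 : ℝ) ≤ p := by exact_mod_cast h4 p hp
      have : 2 / (p : ℝ) ≤ 2 / 4 := by gcongr
      exact inv_exp_bound (by positivity) (by linarith)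
  refine h5.trans ?_
  rw [← Real.exp_sum]
  have h6 : ∑ p ∈ (Ioc (2 ^ l) (2 ^ w)).filter Nat.Prime, 2 * (2 / (p : ℝ)) = 4 * pr (2 ^ l) (2 ^ w) := by
    rw [pr, Finset.mul_sum]
    apply Finset.sum_congr rfl
    intro p _
    ring
  rw [h6]
  have h7 := pr_log (a := l) (w := w) (by omega) hw
  calc Real.exp (4 * pr (2 ^ l) (2 ^ w)) ≤ Real.exp (16 + 16 * Real.log ((w : ℝ) / l)) := by
        gcongr
        linarith
    _ = Real.exp 16 * ((w : ℝ) / l) ^ 16 := by
        rw [Real.exp_add]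
        congr 1
        rw [mul_comm, Real.exp_mul, Real.exp_log (by positivity)]
        norm_cast

/-! ### the window sum -/

open Classical in
/-- the rough numbers in the window `(2^w1, 2^w2]` -/
noncomputable def Wd (l w1 w2 : ℕ) : Finset ℕ :=
  (Ioc (2 ^ w1) (2 ^ w2)).filter (fun k => ∀ p, p.Prime → p ∣ k → 2 ^ l < p)

theorem window_sum {l w1 w2 : ℕ} (hl : 2 ≤ l) (h12 : w1 ≤ w2) (hlw : l ≤ w2) :
    ∑ k ∈ Wd l w1 w2, (k.divisors.card : ℝ) / k ≤
      (8 * ((w2 - w1 : ℕ) + 1) / l) * (Real.exp 16 * ((w2 : ℝ) / l) ^ 16) := by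
  classical
  set Q := (Ioc (2 ^ l) (2 ^ w2)).filter Nat.Prime with hQ
  set J := JJ Q (2 ^ w2) with hJ
  have hl0 : (0 : ℝ) < l := by exact_mod_cast (by omega : 0 < l)
  -- decompose
  have h1 : ∀ k ∈ Wd l w1 w2, (k.divisors.card : ℝ) / k ≤
      ∑ j ∈ J, ∑ p ∈ Q, (if p * j = k then 2 * (j.divisors.card : ℝ) / (p * j) else 0) := by
    intro k hk
    have hnn : ∀ p j : ℕ, (0 : ℝ) ≤
        (if p * j = k then 2 * (j.divisors.card : ℝ) / (p * j) else 0) := by
      intro p j
      by_cases h : p * j = k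
      · rw [if_pos h]; positivity
      · rw [if_neg h]
    simp only [Wd, Finset.mem_filter, Finset.mem_Ioc] at hk
    obtain ⟨⟨hk1, hk2⟩, hk3⟩ := hk
    have hk1' : 1 < k := lt_of_le_of_lt Nat.one_le_two_pow hk1
    have hp : (k.minFac).Prime := Nat.minFac_prime hk1'.ne'
    obtain ⟨j, hj⟩ := Nat.minFac_dvd k
    set p := k.minFac with hpdef
    have hj0 : 0 < j := Nat.pos_of_ne_zero (by rintro rfl; simp at hj; omega)
    have hpQ : p ∈ Q := by
      rw [hQ, Finset.mem_filter, Finset.mem_Ioc]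
      exact ⟨⟨hk3 p hp ⟨j, hj⟩, (Nat.le_of_dvd (by omega) ⟨j, hj⟩).trans hk2⟩, hp⟩
    have hjk : j ∣ k := ⟨p, by rw [mul_comm]; exact hj⟩
    have hjJ : j ∈ J := by
      rw [hJ, JJ, Finset.mem_filter, Finset.mem_Icc]
      refine ⟨⟨hj0, (Nat.le_of_dvd (by omega) hjk).trans hk2⟩, fun q hq hqj => ?_⟩
      rw [hQ, Finset.mem_filter, Finset.mem_Ioc]
      exact ⟨⟨hk3 q hq (hqj.trans hjk),
        (Nat.le_of_dvd (by omega) (hqj.trans hjk)).trans hk2⟩, hq⟩
    have hp0 : (0 : ℝ) < p := by exact_mod_cast hp.pos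
    have hj0' : (0 : ℝ) < j := by exact_mod_cast hj0
    calc (k.divisors.card : ℝ) / k ≤ 2 * (j.divisors.card : ℝ) / (p * j) := by
          have h2 : (k.divisors.card : ℝ) ≤ 2 * (j.divisors.card : ℝ) := by
            have := tau_mul_le (i := j) hp
            rw [← hj] at this
            exact_mod_cast this
          have h3 : (k : ℝ) = p * j := by exact_mod_cast hj
          rw [h3]
          gcongr
      _ = (if p * j = k then 2 * (j.divisors.card : ℝ) / (p * j) else 0) := by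
          rw [if_pos hj.symm]
      _ ≤ ∑ p ∈ Q, (if p * j = k then 2 * (j.divisors.card : ℝ) / (p * j) else 0) :=
          Finset.single_le_sum (f := fun p : ℕ =>
            (if p * j = k then 2 * (j.divisors.card : ℝ) / (p * j) else 0))
            (fun p _ => hnn p j) hpQ
      _ ≤ _ := Finset.single_le_sum (f := fun j : ℕ => ∑ p ∈ Q,
            (if p * j = k then 2 * (j.divisors.card : ℝ) / (p * j) else 0))
            (fun j _ => Finset.sum_nonneg (fun p _ => hnn p j)) hjJ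
  have h2 : ∑ k ∈ Wd l w1 w2, (k.divisors.card : ℝ) / k ≤
      ∑ j ∈ J, ∑ p ∈ Q, (if p * j ∈ Wd l w1 w2 then 2 * (j.divisors.card : ℝ) / (p * j) else 0) := by
    refine (Finset.sum_le_sum h1).trans (le_of_eq ?_)
    rw [Finset.sum_comm]
    apply Finset.sum_congr rfl
    intro j _
    rw [Finset.sum_comm]
    apply Finset.sum_congr rfl
    intro p _
    rw [Finset.sum_ite_eq]
  have h3 : ∀ j ∈ J, ∑ p ∈ Q, (if p * j ∈ Wd l w1 w2 then 2 * (j.divisors.card : ℝ) / (p * j) else 0)
      ≤ (8 * ((w2 - w1 : ℕ) + 1) / l) * ((j.divisors.card : ℝ) / j) := by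
    intro j hj
    rw [hJ, JJ, Finset.mem_filter, Finset.mem_Icc] at hj
    have hj0 : 0 < j := hj.1.1
    have hj0' : (0 : ℝ) < j := by exact_mod_cast hj0
    set x := max (2 ^ l) (2 ^ w1 / j) with hx
    have hsub : Q.filter (fun p => p * j ∈ Wd l w1 w2) ⊆
        (Ioc x (2 ^ (w2 - w1 + 1) * x)).filter Nat.Prime := by
      intro p hp
      simp only [hQ, Wd, Finset.mem_filter, Finset.mem_Ioc] at hp
      obtain ⟨⟨⟨hp1, hp2⟩, hp3⟩, ⟨hp4, hp5⟩, _⟩ := hp
      rw [Finset.mem_filter, Finset.mem_Ioc]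
      refine ⟨⟨?_, ?_⟩, hp3⟩
      · rw [hx, max_lt_iff]
        exact ⟨hp1, (Nat.div_lt_iff_lt_mul hj0).2 hp4⟩
      · -- p ≤ 2^(w2-w1+1) * x
        have h5 : 2 ^ w1 / j + 1 ≤ 2 * x := by
          have h6 : 2 ^ w1 / j ≤ x := le_max_right _ _
          have h7 : 1 ≤ x := le_trans Nat.one_le_two_pow (le_max_left _ _)
          omega
        have h6 : 2 ^ w1 < (2 ^ w1 / j + 1) * j := by
          have := Nat.lt_succ_iff.2 (le_refl (2 ^ w1 / j))
          exact (Nat.div_lt_iff_lt_mul hj0).1 this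
        have h7 : 2 ^ w2 = 2 ^ (w2 - w1) * 2 ^ w1 := by
          rw [← pow_add]; congr 1; omega
        have h8 : p * j ≤ (2 ^ (w2 - w1 + 1) * x) * j := by
          calc p * j ≤ 2 ^ w2 := hp5
            _ = 2 ^ (w2 - w1) * 2 ^ w1 := h7
            _ ≤ 2 ^ (w2 - w1) * ((2 ^ w1 / j + 1) * j) := Nat.mul_le_mul_left _ h6.le
            _ ≤ 2 ^ (w2 - w1) * ((2 * x) * j) :=
                Nat.mul_le_mul_left _ (Nat.mul_le_mul_right _ h5)
            _ = (2 ^ (w2 - w1 + 1) * x) * j := by ring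
        exact Nat.le_of_mul_le_mul_right h8 hj0
    rw [← Finset.sum_filter]
    calc ∑ p ∈ Q.filter (fun p => p * j ∈ Wd l w1 w2), 2 * (j.divisors.card : ℝ) / (p * j)
        ≤ ∑ p ∈ (Ioc x (2 ^ (w2 - w1 + 1) * x)).filter Nat.Prime,
          2 * (j.divisors.card : ℝ) / (p * j) :=
          Finset.sum_le_sum_of_subset_of_nonneg hsub (fun _ _ _ => by positivity)
      _ = 2 * ((j.divisors.card : ℝ) / j) * pr x (2 ^ (w2 - w1 + 1) * x) := by
          rw [pr, Finset.mul_sum]
          apply Finset.sum_congr rfl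
          intro p _
          ring
      _ ≤ 2 * ((j.divisors.card : ℝ) / j) * (((w2 - w1 + 1 : ℕ) : ℝ) * (4 / l)) := by
          gcongr
          exact pr_multi (by omega) (le_max_left _ _) _
      _ = _ := by
          push_cast
          ring
  refine h2.trans ((Finset.sum_le_sum h3).trans ?_)
  rw [← Finset.mul_sum]
  gcongr
  exact tau_sum_le' hl hlw

end Pool.Agent.AE
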