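import Mathlib

set_option autoImplicit false

namespace Pool.Agent.AE

open Finset

theorem two_mul_le_two_pow (R : ℕ) (hR : 1 ≤ R) : 2 * R ≤ 2 ^ R := by
  induction R, hR using Nat.le_induction with
  | base => norm_num
  | succ n hn ih =>
    rw [pow_succ]
    have : 2 ≤ 2 ^ n := by
      calc 2 = 2 ^ 1 := by norm_num
        _ ≤ 2 ^ n := Nat.pow_le_pow_right (by norm_num) hn
    omega

theorem exp_two_le : Real.exp 2 ≤ 8 := by
  have h := Real.exp_one_lt_d9
  have h0 := Real.exp_pos 1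
  have : Real.exp 2 = Real.exp 1 * Real.exp 1 := by
    rw [← Real.exp_add]; norm_num
  rw [this]
  nlinarith

theorem exp_half_le : Real.exp (1 / 2) ≤ 2 := by
  have h := Real.exp_one_lt_d9
  have h0 := Real.exp_pos (1 / 2)
  have : Real.exp 1 = Real.exp (1 / 2) * Real.exp (1 / 2) := by
    rw [← Real.exp_add]; norm_num
  nlinarith

theorem exists_l (C : ℝ) (hC : 0 < C) (N0 : ℕ) :
    ∃ l : ℕ, N0 ≤ l ∧ 3 ≤ l ∧ C * ((1 + Real.log l) ^ 16 / l) ≤ 1 / 4 := by
  have h := (Real.isLittleO_pow_log_id_atTop (n := 16)).def (c := 1 / (4 * C * 2 ^ 16)) (by positivity)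
  have h' := (tendsto_natCast_atTop_atTop (R := ℝ)).eventually h
  obtain ⟨l, hl, h1⟩ := (h'.and (Filter.eventually_ge_atTop (max N0 3))).exists
  have h3 : 3 ≤ l := le_trans (le_max_right _ _) h1
  refine ⟨l, le_trans (le_max_left _ _) h1, h3, ?_⟩
  have hl3 : (3 : ℝ) ≤ l := by exact_mod_cast h3
  have hl0 : (0 : ℝ) < l := by linarith
  have hlog : 1 ≤ Real.log l := by
    rw [Real.le_log_iff_exp_le hl0]
    have := Real.exp_one_lt_d9
    linarith
  have h4 : (1 + Real.log l) ^ 16 ≤ (2 * Real.log l) ^ 16 := by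
    gcongr
    linarith
  simp only [id_eq, Real.norm_eq_abs] at hl
  rw [abs_of_nonneg (by positivity), abs_of_nonneg hl0.le] at hl
  calc C * ((1 + Real.log l) ^ 16 / l) ≤ C * ((2 * Real.log l) ^ 16 / l) := by gcongr
    _ = C * 2 ^ 16 * (Real.log l ^ 16 / l) := by ring
    _ ≤ C * 2 ^ 16 * (1 / (4 * C * 2 ^ 16) * l / l) := by gcongr
    _ = 1 / 4 := by field_simp

theorem params (R a N0 : ℕ) (hR : 1 ≤ R) : ∃ l L j : ℕ, N0 ≤ l ∧ 3 ≤ l ∧ l ≤ L ∧ a ≤ L ∧
    Real.exp (64 * R * (1 + Real.log l)) / 8 ^ j ≤ Real.exp (-(16 * R * (1 + Real.log l))) / 8 ∧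
    (2 : ℝ) ^ (L + a) * (Real.exp 1 * (2 * R * 2 ^ l) ^ j) ≤
      2 ^ (2 * L) * Real.exp (-(16 * R * (1 + Real.log l))) / 4 ∧
    R * ((8 * ((2 * a : ℕ) + 1) / l) * (Real.exp 16 * (((L + a : ℕ) : ℝ) / l) ^ 16)) ≤ 1 / 4 := by
  have hR1 : (1 : ℝ) ≤ R := by exact_mod_cast hR
  obtain ⟨C2, hC2⟩ : ∃ C2 : ℝ, C2 = (4 + 2 * a) + (R + 2) * (51 * R) := ⟨_, rfl⟩
  have hC2pos : 0 < C2 := by rw [hC2]; positivity
  obtain ⟨C3, hC3⟩ : ∃ C3 : ℝ, C3 = R * (8 * (2 * a + 1)) * (Real.exp 16 * C2 ^ 16) := ⟨_, rfl⟩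
  have hC3pos : 0 < C3 := by rw [hC3]; positivity
  obtain ⟨l, hN0, h3, hl⟩ := exists_l C3 hC3pos N0
  have hl3 : (3 : ℝ) ≤ l := by exact_mod_cast h3
  have hl0 : (0 : ℝ) < l := by linarith
  obtain ⟨lam, hlam⟩ : ∃ lam : ℝ, lam = 1 + Real.log l := ⟨_, rfl⟩
  rw [← hlam] at hl
  have hlam1 : 1 ≤ lam := by
    have : 0 ≤ Real.log l := Real.log_nonneg (by linarith)
    rw [hlam]
    linarith
  have hRl : 1 ≤ R * lam := by nlinarith
  obtain ⟨j, hj1, hj2⟩ : ∃ j : ℕ, 50 * (R * lam) ≤ j ∧ (j : ℝ) ≤ 51 * (R * lam) := by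
    refine ⟨⌈50 * (R * lam)⌉₊, Nat.le_ceil _, ?_⟩
    have := Nat.ceil_lt_add_one (a := 50 * (R * lam)) (by linarith)
    linarith
  obtain ⟨L, hL⟩ : ∃ L : ℕ, L = 4 + a + (R + l + 1) * j := ⟨_, rfl⟩
  have hj0 : 1 ≤ j := by
    have : (1 : ℝ) ≤ j := by linarith
    exact_mod_cast this
  refine ⟨l, L, j, hN0, h3, ?_, ?_, ?_, ?_, ?_⟩ <;> (try rw [← hlam])
  · have : l * 1 ≤ (R + l + 1) * j := Nat.mul_le_mul (by omega) hj0
    omega
  · omega
  · -- (i)
    have h8 : Real.exp (2 * j) ≤ 8 ^ j := by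
      rw [Real.exp_mul]
      have : Real.exp 2 ^ (j : ℝ) = Real.exp 2 ^ j := Real.rpow_natCast _ _
      rw [this]
      exact pow_le_pow_left₀ (Real.exp_pos _).le exp_two_le _
    have h9 : (8 : ℝ) ≤ Real.exp (20 * (R * lam)) := by
      have := Real.add_one_le_exp (20 * (R * lam))
      linarith
    rw [div_le_iff₀ (by positivity)]
    calc Real.exp (64 * R * lam) = Real.exp (-(16 * R * lam)) * Real.exp (80 * (R * lam)) := by
          rw [← Real.exp_add]; congr 1; ring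
      _ ≤ Real.exp (-(16 * R * lam)) * (Real.exp (2 * j) / 8) := by
          gcongr
          rw [le_div_iff₀ (by norm_num)]
          calc Real.exp (80 * (R * lam)) * 8
              ≤ Real.exp (80 * (R * lam)) * Real.exp (20 * (R * lam)) := by gcongr
            _ = Real.exp (100 * (R * lam)) := by rw [← Real.exp_add]; congr 1; ring
            _ ≤ Real.exp (2 * j) := by
                apply Real.exp_le_exp.2
                linarith
      _ ≤ Real.exp (-(16 * R * lam)) * (8 ^ j / 8) := by gcongr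
      _ = _ := by ring
  · -- (ii)
    have h1 : Real.exp 1 ≤ 2 ^ 2 := by
      have := Real.exp_one_lt_d9
      norm_num
      linarith
    have h2 : (2 * (R : ℝ)) ≤ 2 ^ R := by exact_mod_cast two_mul_le_two_pow R hR
    have h4 : Real.exp (16 * R * lam) ≤ 2 ^ j := by
      calc Real.exp (16 * R * lam) ≤ Real.exp (1 / 2 * j) := by
            apply Real.exp_le_exp.2
            nlinarith
        _ = Real.exp (1 / 2) ^ j := by
            rw [Real.exp_mul]
            exact Real.rpow_natCast _ _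
        _ ≤ 2 ^ j := pow_le_pow_left₀ (Real.exp_pos _).le exp_half_le _
    have h5 : (2 : ℝ) ^ (L + a) * (Real.exp 1 * (2 * R * 2 ^ l) ^ j) * 4 * Real.exp (16 * R * lam) ≤
        2 ^ (2 * L) := by
      calc (2 : ℝ) ^ (L + a) * (Real.exp 1 * (2 * R * 2 ^ l) ^ j) * 4 * Real.exp (16 * R * lam)
          ≤ (2 : ℝ) ^ (L + a) * (2 ^ 2 * (2 ^ R * 2 ^ l) ^ j) * 2 ^ 2 * 2 ^ j := by
            have : (4 : ℝ) = 2 ^ 2 := by norm_num
            rw [this]
            gcongr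
        _ = 2 ^ (2 * L) := by
            rw [hL]
            ring
    rw [le_div_iff₀ (by norm_num), Real.exp_neg]
    rw [← div_eq_mul_inv, le_div_iff₀ (Real.exp_pos _)]
    exact h5
  · -- (iii)
    have h1 : (((L + a : ℕ) : ℝ) / l) ≤ C2 * lam := by
      rw [div_le_iff₀ hl0]
      have e1 : ((L + a : ℕ) : ℝ) = (4 + 2 * a) + (R + l + 1) * j := by
        rw [hL]; push_cast; ring
      rw [e1, hC2]
      have h2 : ((R : ℝ) + l + 1) ≤ (R + 2) * l := by nlinarith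
      have h4 : ((R : ℝ) + l + 1) * j ≤ (R + 2) * l * (51 * (R * lam)) := by gcongr
      have h5 : (4 + 2 * (a : ℝ)) ≤ (4 + 2 * a) * lam * l := by
        have h6 : (1 : ℝ) ≤ lam * l := by nlinarith
        have h7 : (0 : ℝ) ≤ 4 + 2 * a := by positivity
        calc (4 + 2 * (a : ℝ)) = (4 + 2 * a) * 1 := by ring
          _ ≤ (4 + 2 * a) * (lam * l) := by gcongr
          _ = _ := by ring
      calc (4 + 2 * (a : ℝ)) + (R + l + 1) * j
          ≤ (4 + 2 * a) * lam * l + (R + 2) * l * (51 * (R * lam)) := add_le_add h5 h4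
        _ = _ := by ring
    calc R * ((8 * ((2 * a : ℕ) + 1) / l) * (Real.exp 16 * (((L + a : ℕ) : ℝ) / l) ^ 16))
        ≤ R * ((8 * ((2 * a : ℕ) + 1) / l) * (Real.exp 16 * (C2 * lam) ^ 16)) := by gcongr
      _ = C3 * (lam ^ 16 / l) := by
          rw [hC3]
          push_cast
          ring
      _ ≤ 1 / 4 := hl

end Pool.Agent.AE
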