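import Mathlib

set_option autoImplicit false

namespace Pool.Agent.AE

open Finset

/-- solutions `α mod k` of `(2 M α - 1)^2 ≡ 1 + 8 r` -/
def Sol (M k r : ℕ) : Finset ℕ :=
  (range k).filter (fun α => (k : ℤ) ∣ (2 * M * α - 1) ^ 2 - (1 + 8 * r))

theorem mem_Sol {M k r α : ℕ} : α ∈ Sol M k r ↔ α < k ∧
    (k : ℤ) ∣ (2 * M * α - 1) ^ 2 - (1 + 8 * r) := by
  simp [Sol]

theorem int_dvd_of_pp {k : ℕ} {z : ℤ}
    (h : ∀ p e : ℕ, p.Prime → 0 < e → p ^ e ∣ k → ((p : ℤ) ^ e) ∣ z) : (k : ℤ) ∣ z := by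
  rw [Int.natCast_dvd, Nat.dvd_iff_prime_pow_dvd_dvd]
  intro p e hp hpe
  rcases Nat.eq_zero_or_pos e with rfl | he
  · simp
  · have := h p e hp he hpe
    rw [← Int.natCast_dvd]
    push_cast
    exact this

theorem card_Sol_le {M k r : ℕ} (hk : 0 < k)
    (hcop : ∀ p, p.Prime → p ∣ k → ¬ p ∣ 2 * M * (1 + 8 * r)) :
    (Sol M k r).card ≤ k.divisors.card := by
  classical
  rcases (Sol M k r).eq_empty_or_nonempty with he | ⟨α0, hα0⟩
  · rw [he]; simp
  set y : ℕ → ℤ := fun α => 2 * M * α - 1 with hy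
  rw [mem_Sol] at hα0
  have h2 : ∀ p : ℕ, p.Prime → p ∣ k → ¬ ((p : ℤ) ∣ 2) := by
    intro p hp hpk hcon
    apply hcop p hp hpk
    have : p ∣ 2 := by exact_mod_cast hcon
    exact Dvd.dvd.mul_right (Dvd.dvd.mul_right this _) _
  have hM : ∀ p : ℕ, p.Prime → p ∣ k → ¬ ((p : ℤ) ∣ M) := by
    intro p hp hpk hcon
    apply hcop p hp hpk
    have : p ∣ M := by exact_mod_cast hcon
    exact Dvd.dvd.mul_right (Dvd.dvd.mul_left this _) _
  have hD : ∀ p : ℕ, p.Prime → p ∣ k → ¬ ((p : ℤ) ∣ (1 + 8 * r : ℤ)) := by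
    intro p hp hpk hcon
    apply hcop p hp hpk
    have : p ∣ 1 + 8 * r := by exact_mod_cast hcon
    exact Dvd.dvd.mul_left this _
  -- p does not divide both y - y0 and y + y0
  have key : ∀ α, (k : ℤ) ∣ (y α) ^ 2 - (1 + 8 * r) → ∀ p : ℕ, p.Prime → p ∣ k →
      ¬ ((p : ℤ) ∣ y α - y α0 ∧ (p : ℤ) ∣ y α + y α0) := by
    rintro α hα p hp hpk ⟨h3, h4⟩
    have hp' : Prime (p : ℤ) := Nat.prime_iff_prime_int.1 hp
    have h5 : (p : ℤ) ∣ 2 * y α := by
      have := dvd_add h3 h4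
      have e : y α - y α0 + (y α + y α0) = 2 * y α := by ring
      rwa [e] at this
    have h6 : (p : ℤ) ∣ y α := (hp'.dvd_or_dvd h5).resolve_left (h2 p hp hpk)
    have h7 : (p : ℤ) ∣ (y α) ^ 2 - (1 + 8 * r) := (Int.natCast_dvd_natCast.2 hpk).trans hα
    have h8 : (p : ℤ) ∣ (1 + 8 * r : ℤ) := by
      have h9 : (p : ℤ) ∣ (y α) ^ 2 := dvd_pow h6 (by norm_num)
      have := dvd_sub h9 h7
      have e : (y α) ^ 2 - ((y α) ^ 2 - (1 + 8 * r)) = (1 + 8 * r : ℤ) := by ring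
      rwa [e] at this
    exact hD p hp hpk h8
  have hprod : ∀ α, (k : ℤ) ∣ (y α) ^ 2 - (1 + 8 * r) →
      (k : ℤ) ∣ (y α - y α0) * (y α + y α0) := by
    intro α hα
    have := dvd_sub hα hα0.2
    have e : (y α) ^ 2 - (1 + 8 * r) - ((2 * M * α0 - 1) ^ 2 - (1 + 8 * r)) =
        (y α - y α0) * (y α + y α0) := by
      simp only [hy]
      ring
    rwa [e] at this
  apply Finset.card_le_card_of_injOn (fun α => Int.gcd (y α - y α0) k)
  · intro α _
    simp only [Finset.mem_coe, Nat.mem_divisors]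
    refine ⟨?_, hk.ne'⟩
    exact_mod_cast Int.gcd_dvd_right (y α - y α0) (k : ℤ)
  · intro α hα β hβ hab
    rw [Finset.mem_coe, mem_Sol] at hα hβ
    simp only at hab
    have hdiv : (k : ℤ) ∣ y α - y β := by
      apply int_dvd_of_pp
      intro p e hp he hpe
      have hpk : p ∣ k := (dvd_pow_self p he.ne').trans hpe
      have hp' : Prime (p : ℤ) := Nat.prime_iff_prime_int.1 hp
      have hpe' : ((p : ℤ) ^ e) ∣ (k : ℤ) := by exact_mod_cast hpe
      by_cases hcase : (p : ℤ) ∣ y α - y α0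
      · -- then p does not divide y + y0
        have h3 : ¬ (p : ℤ) ∣ y α + y α0 := fun h => key α hα.2 p hp hpk ⟨hcase, h⟩
        have h4 : ((p : ℤ) ^ e) ∣ y α - y α0 :=
          hp'.pow_dvd_of_dvd_mul_right e h3 (hpe'.trans (hprod α hα.2))
        have h5 : ((p : ℤ) ^ e) ∣ (Int.gcd (y α - y α0) k : ℤ) := Int.dvd_coe_gcd h4 hpe'
        rw [hab] at h5
        have h6 : ((p : ℤ) ^ e) ∣ y β - y α0 := h5.trans (Int.gcd_dvd_left _ _)
        have := dvd_sub h4 h6
        have e2 : y α - y α0 - (y β - y α0) = y α - y β := by ring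
        rwa [e2] at this
      · have h3 : ((p : ℤ) ^ e) ∣ y α + y α0 :=
          hp'.pow_dvd_of_dvd_mul_left e hcase (hpe'.trans (hprod α hα.2))
        have h4 : ¬ (p : ℤ) ∣ y β - y α0 := by
          intro hcon
          have h5 : (p : ℤ) ∣ (Int.gcd (y β - y α0) k : ℤ) :=
            Int.dvd_coe_gcd hcon (Int.natCast_dvd_natCast.2 hpk)
          rw [← hab] at h5
          exact hcase (h5.trans (Int.gcd_dvd_left _ _))
        have h5 : ((p : ℤ) ^ e) ∣ y β + y α0 :=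
          hp'.pow_dvd_of_dvd_mul_left e h4 (hpe'.trans (hprod β hβ.2))
        have := dvd_sub h3 h5
        have e2 : y α + y α0 - (y β + y α0) = y α - y β := by ring
        rwa [e2] at this
    have hdiv2 : (k : ℤ) ∣ (α : ℤ) - β := by
      apply int_dvd_of_pp
      intro p e hp he hpe
      have hpk : p ∣ k := (dvd_pow_self p he.ne').trans hpe
      have hp' : Prime (p : ℤ) := Nat.prime_iff_prime_int.1 hp
      have hpe' : ((p : ℤ) ^ e) ∣ (k : ℤ) := by exact_mod_cast hpe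
      have h3 : ¬ (p : ℤ) ∣ (2 * M : ℤ) := by
        intro hcon
        rcases hp'.dvd_or_dvd hcon with h | h
        · exact h2 p hp hpk h
        · exact hM p hp hpk h
      have h4 : ((p : ℤ) ^ e) ∣ (2 * M : ℤ) * ((α : ℤ) - β) := by
        have e2 : (2 * M : ℤ) * ((α : ℤ) - β) = y α - y β := by
          simp only [hy]; ring
        rw [e2]
        exact hpe'.trans hdiv
      exact hp'.pow_dvd_of_dvd_mul_left e h3 h4
    -- both are smaller than k
    have h7 : (α : ℤ) ≡ β [ZMOD k] := (Int.modEq_iff_dvd.2 (by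
      have := (dvd_neg.2 hdiv2)
      have e2 : -((α : ℤ) - β) = β - α := by ring
      rwa [e2] at this))
    have h8 : α ≡ β [MOD k] := (Int.natCast_modEq_iff).1 h7
    exact Nat.ModEq.eq_of_lt_of_lt h8 hα.1 hβ.1

/-- the bad residue classes modulo a prime -/
def BadSet (M R p : ℕ) : Finset ℕ := (Icc 1 R).biUnion (fun r => Sol M p r)

theorem BadSet_subset (M R p : ℕ) : BadSet M R p ⊆ range p := by
  intro α hα
  rw [BadSet, Finset.mem_biUnion] at hα
  obtain ⟨r, _, h⟩ := hα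
  rw [mem_Sol] at h
  simpa using h.1

theorem card_BadSet_le {M R p : ℕ} (hp : p.Prime)
    (h : ∀ r, 1 ≤ r → r ≤ R → ¬ p ∣ 2 * M * (1 + 8 * r)) : (BadSet M R p).card ≤ 2 * R := by
  refine Finset.card_biUnion_le.trans ?_
  calc ∑ r ∈ Icc 1 R, (Sol M p r).card ≤ ∑ _r ∈ Icc 1 R, 2 := by
        apply Finset.sum_le_sum
        intro r hr
        rw [Finset.mem_Icc] at hr
        refine (card_Sol_le hp.pos ?_).trans ?_
        · intro q hq hqp
          rw [(Nat.prime_dvd_prime_iff_eq hq hp).1 hqp]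
          exact h r hr.1 hr.2
        · rw [hp.divisors, Finset.card_pair hp.one_lt.ne]
    _ = 2 * R := by
        rw [Finset.sum_const, Nat.card_Icc, smul_eq_mul]
        simp [mul_comm]

/-- membership in a class and divisibility -/
theorem mod_mem_Sol {M k r t : ℕ} (hk : 0 < k)
    (h : (k : ℤ) ∣ (2 * M * t - 1) ^ 2 - (1 + 8 * r)) : t % k ∈ Sol M k r := by
  rw [mem_Sol]
  refine ⟨Nat.mod_lt _ hk, ?_⟩
  have h1 : ((t % k : ℕ) : ℤ) ≡ t [ZMOD k] := by
    push_cast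
    exact Int.mod_modEq _ _
  have h2 : (2 * M * ((t % k : ℕ) : ℤ) - 1) ^ 2 - (1 + 8 * r) ≡
      (2 * M * t - 1) ^ 2 - (1 + 8 * r) [ZMOD k] := by
    apply Int.ModEq.sub_right
    apply Int.ModEq.pow
    apply Int.ModEq.sub_right
    exact Int.ModEq.mul_left _ h1
  exact (Int.ModEq.dvd_iff h2).2 h

end Pool.Agent.AE
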