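import Pool.Agent.AE.Sieve
import Pool.Agent.AE.Mert
import Pool.Agent.AE.Sol
import Pool.Agent.AE.Params

set_option autoImplicit false

namespace Pool.Agent.AE

open Finset

theorem exists_good (R a M Z N0 : ℕ) (hR : 1 ≤ R) (hZ : 4 * R + 2 ≤ Z)
    (hcop : ∀ p, p.Prime → Z < p → ∀ r, 1 ≤ r → r ≤ R → ¬ p ∣ 2 * M * (1 + 8 * r)) :
    ∃ l L t : ℕ, N0 ≤ l ∧ l ≤ L ∧ a ≤ L ∧ 2 ^ (2 * L) < t ∧ t ≤ 2 * 2 ^ (2 * L) ∧
      ∀ r, 1 ≤ r → r ≤ R →
        (∀ p, p.Prime → Z < p → p ≤ 2 ^ l → ¬ (p : ℤ) ∣ (2 * M * t - 1) ^ 2 - (1 + 8 * r)) ∧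
        ∀ k ∈ Wd l (L - a) (L + a), ¬ (k : ℤ) ∣ (2 * M * t - 1) ^ 2 - (1 + 8 * r) := by
  classical
  obtain ⟨l, L, j, hN0, hl3, hlL, haL, hE, hErr, hsig⟩ := params R a (max N0 Z) hR
  have hN0' : N0 ≤ l := le_trans (le_max_left _ _) hN0
  have hZl : Z ≤ l := le_trans (le_max_right _ _) hN0
  have hZ2l : Z ≤ 2 ^ l := hZl.trans (Nat.lt_two_pow_self).le
  have hR1 : (1 : ℝ) ≤ R := by exact_mod_cast hR
  have hl0 : (0 : ℝ) < l := by exact_mod_cast (by omega : 0 < l)
  obtain ⟨lam, hlam⟩ : ∃ lam : ℝ, lam = 1 + Real.log l := ⟨_, rfl⟩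
  rw [← hlam] at hE hErr
  set Y : ℕ := 2 ^ (2 * L) with hY
  set P : Finset ℕ := (Ioc Z (2 ^ l)).filter Nat.Prime with hP
  have hPprime : ∀ p ∈ P, p.Prime := fun p hp => (Finset.mem_filter.1 hp).2
  have hPmem : ∀ p ∈ P, Z < p ∧ p ≤ 2 ^ l := fun p hp =>
    Finset.mem_Ioc.1 (Finset.mem_filter.1 hp).1
  have hνle : ∀ p ∈ P, (((BadSet M R p).card : ℕ) : ℝ) ≤ 2 * R := by
    intro p hp
    have := card_BadSet_le (M := M) (R := R) (hPprime p hp)
      (hcop p (hPprime p hp) (hPmem p hp).1)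
    exact_mod_cast this
  have hp0 : ∀ p ∈ P, (0 : ℝ) < p := fun p hp => by exact_mod_cast (hPprime p hp).pos
  have hx0 : ∀ p ∈ P, 0 ≤ ((BadSet M R p).card : ℝ) / p := fun p hp => by
    have := hp0 p hp
    positivity
  have hx2 : ∀ p ∈ P, ((BadSet M R p).card : ℝ) / p ≤ 1 / 2 := by
    intro p hp
    rw [div_le_iff₀ (hp0 p hp)]
    have h1 := hνle p hp
    have h2 : (4 * R + 2 : ℝ) ≤ p := by
      have := (hPmem p hp).1
      exact_mod_cast (by omega : 4 * R + 2 ≤ p)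
    linarith
  set Λ : ℝ := ∑ p ∈ P, ((BadSet M R p).card : ℝ) / p with hΛ
  have hΛle : Λ ≤ 8 * R * lam := by
    have h1 : Λ ≤ 2 * R * pr Z (2 ^ l) := by
      rw [hΛ, pr, Finset.mul_sum]
      apply Finset.sum_le_sum
      intro p hp
      have h0 := hp0 p hp
      rw [mul_one_div]
      exact div_le_div_of_nonneg_right (hνle p hp) h0.le
    have h2 : pr Z (2 ^ l) ≤ pr (2 ^ 1) (2 ^ l) := pr_mono (by omega) le_rfl
    have h3 := pr_log (a := 1) (w := l) le_rfl (by omega)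
    rw [Nat.cast_one, div_one, ← hlam] at h3
    calc Λ ≤ 2 * R * pr Z (2 ^ l) := h1
      _ ≤ 2 * R * (4 * lam) := by
          gcongr
          exact h2.trans h3
      _ = 8 * R * lam := by ring
  set V : ℝ := ∏ p ∈ P, (1 - ((BadSet M R p).card : ℝ) / p) with hV
  set W : ℝ := ∏ p ∈ P, (1 + 8 * (((BadSet M R p).card : ℝ) / p)) with hW
  set s' : ℝ := 1 / (2 * R * 2 ^ l) with hs'
  set W' : ℝ := ∏ p ∈ P, (1 + s' * ((BadSet M R p).card : ℝ)) with hW'
  have hs'0 : 0 < s' := by rw [hs']; positivity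
  have hs'1 : s' ≤ 1 := by
    rw [hs', div_le_one (by positivity)]
    have h1 : (1 : ℝ) ≤ 2 ^ l := one_le_pow₀ (by norm_num)
    nlinarith
  have hVge : Real.exp (-(16 * R * lam)) ≤ V := by
    calc Real.exp (-(16 * R * lam)) ≤ Real.exp (∑ p ∈ P, -(2 * (((BadSet M R p).card : ℝ) / p))) := by
          apply Real.exp_le_exp.2
          rw [Finset.sum_neg_distrib, ← Finset.mul_sum, ← hΛ]
          linarith
      _ = ∏ p ∈ P, Real.exp (-(2 * (((BadSet M R p).card : ℝ) / p))) := Real.exp_sum _ _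
      _ ≤ V := by
          apply Finset.prod_le_prod
          · intro p _
            exact (Real.exp_pos _).le
          · intro p hp
            exact exp_bound (hx0 p hp) (hx2 p hp)
  have hV0 : 0 < V := lt_of_lt_of_le (Real.exp_pos _) hVge
  have hWle : W ≤ Real.exp (64 * R * lam) := by
    calc W ≤ ∏ p ∈ P, Real.exp (8 * (((BadSet M R p).card : ℝ) / p)) := by
          apply Finset.prod_le_prod
          · intro p hp
            have := hx0 p hp
            linarith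
          · intro p hp
            have := Real.add_one_le_exp (8 * (((BadSet M R p).card : ℝ) / p))
            linarith
      _ = Real.exp (∑ p ∈ P, 8 * (((BadSet M R p).card : ℝ) / p)) := (Real.exp_sum _ _).symm
      _ ≤ Real.exp (64 * R * lam) := by
          apply Real.exp_le_exp.2
          rw [← Finset.mul_sum, ← hΛ]
          linarith
  have hW0 : 0 ≤ W := Finset.prod_nonneg (fun p hp => by
    have := hx0 p hp
    linarith)
  have hPcard : (P.card : ℝ) ≤ 2 ^ l := by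
    have h1 : P.card ≤ (Ioc Z (2 ^ l)).card := Finset.card_filter_le _ _
    rw [Nat.card_Ioc] at h1
    have h2 : P.card ≤ 2 ^ l := by omega
    exact_mod_cast h2
  have hW'le : W' ≤ Real.exp 1 := by
    calc W' ≤ ∏ p ∈ P, Real.exp (s' * ((BadSet M R p).card : ℝ)) := by
          apply Finset.prod_le_prod
          · intro p _
            positivity
          · intro p _
            have := Real.add_one_le_exp (s' * ((BadSet M R p).card : ℝ))
            linarith
      _ = Real.exp (∑ p ∈ P, s' * ((BadSet M R p).card : ℝ)) := (Real.exp_sum _ _).symm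
      _ ≤ Real.exp 1 := by
          apply Real.exp_le_exp.2
          calc ∑ p ∈ P, s' * ((BadSet M R p).card : ℝ) ≤ ∑ _p ∈ P, s' * (2 * R) := by
                apply Finset.sum_le_sum
                intro p hp
                exact mul_le_mul_of_nonneg_left (hνle p hp) hs'0.le
            _ = P.card * (s' * (2 * R)) := by rw [Finset.sum_const, nsmul_eq_mul]
            _ ≤ 2 ^ l * (s' * (2 * R)) := by gcongr
            _ = 1 := by
                rw [hs']
                field_simp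
  have hW'0 : 0 ≤ W' := Finset.prod_nonneg (fun p _ => by positivity)
  have hsieve0 : ∀ k α : ℕ, 0 < k → (∀ p ∈ P, Nat.Coprime k p) →
      |((sift Y (BadSet M R) P k α).card : ℝ) - (Y : ℝ) / k * V| ≤
        (Y : ℝ) / k * (W / 8 ^ j) + W' / s' ^ j := by
    intro k α hk hc
    exact sieve_main Y (BadSet M R) 8 s' (by norm_num) hs'0 hs'1 P hPprime
      (fun p _ => BadSet_subset M R p) j k α hk hc
  clear_value V W W' Λ
  obtain ⟨E, hEdef⟩ : ∃ E : ℝ, E = W / 8 ^ j := ⟨_, rfl⟩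
  obtain ⟨Er, hErdef⟩ : ∃ Er : ℝ, Er = W' / s' ^ j := ⟨_, rfl⟩
  rw [← hEdef, ← hErdef] at hsieve0
  have hE0 : 0 ≤ E := by rw [hEdef]; exact div_nonneg hW0 (by norm_num)
  have hEr0 : 0 ≤ Er := by rw [hErdef]; exact div_nonneg hW'0 (pow_nonneg hs'0.le _)
  have hEV : E ≤ V / 8 := by
    calc E = W / 8 ^ j := hEdef
      _ ≤ Real.exp (64 * R * lam) / 8 ^ j := by gcongr
      _ ≤ Real.exp (-(16 * R * lam)) / 8 := hE
      _ ≤ V / 8 := by gcongr
  have hYcast : ((Y : ℕ) : ℝ) = 2 ^ (2 * L) := by rw [hY]; push_cast; rfl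
  have hY0 : (0 : ℝ) < Y := by rw [hYcast]; positivity
  have hErV : (2 : ℝ) ^ (L + a) * Er ≤ Y * V / 4 := by
    calc (2 : ℝ) ^ (L + a) * Er ≤ (2 : ℝ) ^ (L + a) * (Real.exp 1 * (2 * R * 2 ^ l) ^ j) := by
          gcongr
          rw [hErdef, hs', one_div, inv_pow, div_inv_eq_mul]
          gcongr
      _ ≤ 2 ^ (2 * L) * Real.exp (-(16 * R * lam)) / 4 := hErr
      _ ≤ Y * V / 4 := by
          rw [hYcast]
          gcongr
  have hsieve : ∀ k α : ℕ, 0 < k → (∀ p ∈ P, Nat.Coprime k p) →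
      |((sift Y (BadSet M R) P k α).card : ℝ) - (Y : ℝ) / k * V| ≤ (Y : ℝ) / k * E + Er := by
    exact hsieve0
  -- the good set is large
  have hgood := hsieve 1 0 one_pos (fun p _ => Nat.coprime_one_left p)
  rw [Nat.cast_one, div_one] at hgood
  -- the bound for the hits
  have hWdprop : ∀ k ∈ Wd l (L - a) (L + a), 0 < k ∧ k ≤ 2 ^ (L + a) ∧
      ∀ p, p.Prime → p ∣ k → 2 ^ l < p := by
    intro k hk
    simp only [Wd, Finset.mem_filter, Finset.mem_Ioc] at hk
    exact ⟨lt_of_le_of_lt (Nat.zero_le _) hk.1.1, hk.1.2, hk.2⟩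
  have hWdcop : ∀ k ∈ Wd l (L - a) (L + a), ∀ p ∈ P, Nat.Coprime k p := by
    intro k hk p hp
    rw [Nat.coprime_comm, (hPprime p hp).coprime_iff_not_dvd]
    intro hcon
    have h1 := (hWdprop k hk).2.2 p (hPprime p hp) hcon
    have h2 := (hPmem p hp).2
    omega
  by_contra hcon
  push Not at hcon
  have hcover : sift Y (BadSet M R) P 1 0 ⊆ (Icc 1 R).biUnion (fun r =>
      (Wd l (L - a) (L + a)).biUnion (fun k => (Sol M k r).biUnion (fun α =>
        sift Y (BadSet M R) P k α))) := by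
    intro t ht
    simp only [sift, Finset.mem_filter, Finset.mem_Ioc] at ht
    obtain ⟨⟨ht1, ht2⟩, _, ht3⟩ := ht
    obtain ⟨r, hr1, hr2, hr3⟩ := hcon l L t hN0' hlL haL ht1 ht2
    have hsft : ∀ p, p.Prime → Z < p → p ≤ 2 ^ l →
        ¬ (p : ℤ) ∣ (2 * M * t - 1) ^ 2 - (1 + 8 * r) := by
      intro p hp hZp hpl hdiv
      have hpP : p ∈ P := by
        rw [hP, Finset.mem_filter, Finset.mem_Ioc]
        exact ⟨⟨hZp, hpl⟩, hp⟩
      apply ht3 p hpP
      rw [BadSet, Finset.mem_biUnion]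
      exact ⟨r, Finset.mem_Icc.2 ⟨hr1, hr2⟩, mod_mem_Sol hp.pos hdiv⟩
    obtain ⟨k, hk, hkdiv⟩ := hr3 hsft
    simp only [Finset.mem_biUnion]
    refine ⟨r, Finset.mem_Icc.2 ⟨hr1, hr2⟩, k, hk, t % k, mod_mem_Sol (hWdprop k hk).1 hkdiv, ?_⟩
    simp only [sift, Finset.mem_filter, Finset.mem_Ioc]
    exact ⟨⟨ht1, ht2⟩, (Nat.mod_modEq t k).symm, ht3⟩
  have hcard : ((sift Y (BadSet M R) P 1 0).card : ℝ) ≤
      ∑ _r ∈ Icc 1 R, ∑ k ∈ Wd l (L - a) (L + a),
        ((k.divisors.card : ℝ) / k) * (Y * (V + E) + 2 ^ (L + a) * Er) := by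
    have h1 : (sift Y (BadSet M R) P 1 0).card ≤
        ∑ r ∈ Icc 1 R, ∑ k ∈ Wd l (L - a) (L + a), ∑ α ∈ Sol M k r,
          (sift Y (BadSet M R) P k α).card := by
      refine (Finset.card_le_card hcover).trans (Finset.card_biUnion_le.trans ?_)
      apply Finset.sum_le_sum
      intro r _
      refine Finset.card_biUnion_le.trans ?_
      apply Finset.sum_le_sum
      intro k _
      exact Finset.card_biUnion_le
    have h2 : ((sift Y (BadSet M R) P 1 0).card : ℝ) ≤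
        ∑ r ∈ Icc 1 R, ∑ k ∈ Wd l (L - a) (L + a), ∑ α ∈ Sol M k r,
          ((sift Y (BadSet M R) P k α).card : ℝ) := by exact_mod_cast h1
    refine h2.trans ?_
    apply Finset.sum_le_sum
    intro r hr
    rw [Finset.mem_Icc] at hr
    apply Finset.sum_le_sum
    intro k hk
    obtain ⟨hk0, hkle, hkr⟩ := hWdprop k hk
    have hk0' : (0 : ℝ) < k := by exact_mod_cast hk0
    have hkle' : (k : ℝ) ≤ 2 ^ (L + a) := by exact_mod_cast hkle
    have h3 : ∀ α ∈ Sol M k r, ((sift Y (BadSet M R) P k α).card : ℝ) ≤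
        (Y : ℝ) / k * (V + E) + Er := by
      intro α _
      have := hsieve k α hk0 (hWdcop k hk)
      rw [abs_le] at this
      linarith [this.2]
    have h4 : ((Sol M k r).card : ℝ) ≤ k.divisors.card := by
      have : (Sol M k r).card ≤ k.divisors.card := by
        apply card_Sol_le hk0
        intro p hp hpk
        have := hkr p hp hpk
        exact hcop p hp (by omega) r hr.1 hr.2
      exact_mod_cast this
    have h5 : 0 ≤ (Y : ℝ) / k * (V + E) + Er := by positivity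
    calc ∑ α ∈ Sol M k r, ((sift Y (BadSet M R) P k α).card : ℝ)
        ≤ ∑ _α ∈ Sol M k r, ((Y : ℝ) / k * (V + E) + Er) := Finset.sum_le_sum h3
      _ = (Sol M k r).card * ((Y : ℝ) / k * (V + E) + Er) := by
          rw [Finset.sum_const, nsmul_eq_mul]
      _ ≤ k.divisors.card * ((Y : ℝ) / k * (V + E) + Er) := by gcongr
      _ = ((k.divisors.card : ℝ) / k) * (Y * (V + E) + k * Er) := by
          field_simp
      _ ≤ ((k.divisors.card : ℝ) / k) * (Y * (V + E) + 2 ^ (L + a) * Er) := by gcongr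
  rw [Finset.sum_const, ← Finset.sum_mul, Nat.card_Icc, nsmul_eq_mul, Nat.add_sub_cancel] at hcard
  have hwin := window_sum (l := l) (w1 := L - a) (w2 := L + a) (by omega) (by omega) (by omega)
  have h2a : (L + a) - (L - a) = 2 * a := by omega
  rw [h2a] at hwin
  have hRsig : R * ∑ k ∈ Wd l (L - a) (L + a), ((k.divisors.card : ℝ) / k) ≤ 1 / 4 := by
    refine le_trans ?_ hsig
    gcongr
  have hfin : ((sift Y (BadSet M R) P 1 0).card : ℝ) ≤
      1 / 4 * (Y * (V + E) + 2 ^ (L + a) * Er) := by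
    calc _ ≤ _ := hcard
      _ = (R * ∑ k ∈ Wd l (L - a) (L + a), ((k.divisors.card : ℝ) / k)) *
          (Y * (V + E) + 2 ^ (L + a) * Er) := by ring
      _ ≤ _ := by
          gcongr
  have hEr1 : Er ≤ 2 ^ (L + a) * Er := by
    have h1 : (1 : ℝ) ≤ 2 ^ (L + a) := one_le_pow₀ (by norm_num)
    nlinarith
  have hYV : 0 < Y * V := by positivity
  have hYE : Y * E ≤ Y * V / 8 := by
    calc Y * E ≤ Y * (V / 8) := by gcongr
      _ = _ := by ring
  rw [abs_le] at hgood
  have e1 : (Y : ℝ) * (V + E) = Y * V + Y * E := by ring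
  rw [e1] at hfin
  linarith [hgood.1]

end Pool.Agent.AE
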