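import Pool.Agent.AE.Avoid
import Pool.Agent.AE.Enforce

set_option autoImplicit false

namespace Pool.Agent.AE

open Finset

variable {n : ℕ}

theorem k3_ncard (v : Fin 3) : (K3.neighborSet v).ncard = 2 := by
  have : K3.neighborSet v = ((univ.erase v : Finset (Fin 3)) : Set (Fin 3)) := by
    ext w
    simp only [K3, SimpleGraph.mem_neighborSet, SimpleGraph.top_adj, Finset.coe_erase,
      Finset.coe_univ, Set.mem_diff, Set.mem_univ, true_and, Set.mem_singleton_iff]
    exact ne_comm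
  rw [this, Set.ncard_coe_finset, Finset.card_erase_of_mem (Finset.mem_univ _)]
  simp

theorem e01_mem : s((0 : Fin 3), 1) ∈ K3.edgeSet := by
  rw [SimpleGraph.mem_edgeSet]
  simp [K3]

/-- the path with two edges -/
abbrev P3 := deleteEdge K3 s((0 : Fin 3), 1)

theorem p3_contained_of_cherry {A : Finset (Sym2 (Fin n))} (h : HasCherry A) :
    P3.IsContained (SimpleGraph.fromEdgeSet (A : Set (Sym2 (Fin n)))) := by
  obtain ⟨x, y, z, hxy, hyz, hxz, h1, h2⟩ := h
  let g : Fin 3 → Fin n := ![x, z, y]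
  have hg : Function.Injective g := by
    intro i j hij
    fin_cases i <;> fin_cases j <;> simp_all [g] <;> first | (exact absurd hij.symm hxz) | (exact absurd hij.symm hxy) | (exact absurd hij.symm hyz) | skip
  refine ⟨⟨⟨fun v => g v.1, ?_⟩, ?_⟩⟩
  · rintro ⟨u, hu⟩ ⟨v, hv⟩ huv
    have h3 : (K3.deleteEdges {s((0 : Fin 3), 1)}).Adj u v := huv
    rw [SimpleGraph.deleteEdges_adj] at h3
    obtain ⟨h4, h5⟩ := h3
    have h4' : u ≠ v := by simpa [K3] using h4
    rw [SimpleGraph.fromEdgeSet_adj]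
    refine ⟨?_, fun h => h4' (hg h)⟩
    show s(g u, g v) ∈ (A : Set (Sym2 (Fin n)))
    have h6 : s(z, y) ∈ A := by rw [Sym2.eq_swap]; exact h2
    have h7 : s(y, x) ∈ A := by rw [Sym2.eq_swap]; exact h1
    fin_cases u <;> fin_cases v <;> simp_all [g]
  · rintro ⟨u, hu⟩ ⟨v, hv⟩ huv
    exact Subtype.ext (hg huv)

theorem p3_two_le {A : Finset (Sym2 (Fin n))}
    (h : P3.IsContained (SimpleGraph.fromEdgeSet (A : Set (Sym2 (Fin n))))) : 2 ≤ A.card := by
  obtain ⟨f⟩ := h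
  have hv : ∀ v : Fin 3, ¬ (v ∈ s((0 : Fin 3), 1) ∧ (K3.neighborSet v).ncard = 1) := by
    intro v hv
    rw [k3_ncard] at hv
    omega
  have key : ∀ i : Fin 3, i ≠ 2 → s(f ⟨i, hv i⟩, f ⟨2, hv 2⟩) ∈ A := by
    intro i hi
    have h1 : P3.Adj ⟨i, hv i⟩ ⟨2, hv 2⟩ := by
      show (K3.deleteEdges {s((0 : Fin 3), 1)}).Adj i 2
      rw [SimpleGraph.deleteEdges_adj]
      refine ⟨by simpa [K3] using hi, ?_⟩
      rw [Set.mem_singleton_iff, Sym2.eq_iff]
      rintro (⟨_, h⟩ | ⟨_, h⟩)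
      · exact absurd h (by decide)
      · exact absurd h (by decide)
    have h2 := f.toHom.map_rel h1
    have h3 : (SimpleGraph.fromEdgeSet (A : Set (Sym2 (Fin n)))).Adj (f ⟨i, hv i⟩) (f ⟨2, hv 2⟩) := h2
    rw [SimpleGraph.fromEdgeSet_adj] at h3
    exact_mod_cast h3.1
  have h0 := key 0 (by decide)
  have h1 := key 1 (by decide)
  have hne : s(f ⟨0, hv 0⟩, f ⟨2, hv 2⟩) ≠ s(f ⟨1, hv 1⟩, f ⟨2, hv 2⟩) := by
    intro hcon
    have := Sym2.congr_left.1 hcon
    have h3 := f.injective this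
    have h4 : (0 : Fin 3) = 1 := congrArg Subtype.val h3
    exact absurd h4 (by decide)
  have : 1 < A.card := Finset.one_lt_card.2 ⟨_, h0, _, h1, hne⟩
  omega

theorem p3_avoider_large {b : ℕ} (h1 : 1 ≤ (allEdges n).card) (h2 : (allEdges n).card ≤ b) :
    ¬ EnforcerWins P3 n b := by
  unfold EnforcerWins
  obtain ⟨k, hk⟩ : ∃ k, (allEdges n).card = k + 1 := ⟨_, (Nat.succ_pred_eq_of_pos h1).symm⟩
  rw [hk]
  intro h
  obtain ⟨e, he⟩ := Finset.card_pos.1 h1
  obtain ⟨B, hB, hBc, hw⟩ := h.2 e he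
  have hBe : B = (allEdges n).erase e := by
    apply Finset.eq_of_subset_of_card_le hB
    rw [hBc, Finset.card_erase_of_mem he]
    omega
  rw [hBe, Finset.sdiff_self] at hw
  have h3 := p3_two_le (wins_empty hw)
  simp at h3

theorem p3_lower_ge {m : ℕ} (h1 : 1 ≤ (allEdges n).card)
    (h : ∀ b, 1 ≤ b → b ≤ m → EnforcerWins P3 n b) : m ≤ lowerThreshold P3 n := by
  apply le_csSup
  · refine ⟨(allEdges n).card, ?_⟩
    intro k hk
    by_contra hcon
    push Not at hcon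
    exact p3_avoider_large h1 le_rfl (hk _ h1 hcon.le)
  · exact h

theorem lower_le_maxLower (n : ℕ) : lowerThreshold P3 n ≤ maxLower K3 n := by
  unfold maxLower
  have hfin : Finite K3.edgeSet := Subtype.finite
  exact le_ciSup (f := fun e : K3.edgeSet => lowerThreshold (deleteEdge K3 (e : Sym2 (Fin 3))) n)
    (Set.finite_range _).bddAbove ⟨_, e01_mem⟩

/-- Enforcer wins the `P3`-game for all biases up to `c n^(3/2)`. -/
theorem maxLower_ge {m : ℕ} (h1 : 1 ≤ (allEdges n).card)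
    (h : ∀ b, 1 ≤ b → b ≤ m → ∃ q j : ℕ, b + 1 ≤ j * q ∧
      (q + 2) ^ 2 + j * (b + 1 + 2 * n) ≤ (allEdges n).card) : m ≤ maxLower K3 n := by
  have hn : 1 ≤ n := by
    rcases Nat.eq_zero_or_pos n with rfl | h
    · rw [card_allEdges] at h1
      simp at h1
    · exact h
  refine (p3_lower_ge h1 ?_).trans (lower_le_maxLower n)
  intro b hb hbm
  obtain ⟨q, j, h2, h3⟩ := h b hb hbm
  exact enforcer_wins hn (fun A hA => p3_contained_of_cherry hA) h2 h3

end Pool.Agent.AE
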