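import Mathlib

set_option autoImplicit false

namespace Pool.Agent.AE

open Finset

/-- the sifted set -/
def sift (Y : ℕ) (Bad : ℕ → Finset ℕ) (P : Finset ℕ) (k α : ℕ) : Finset ℕ :=
  (Ioc Y (2 * Y)).filter (fun t => t ≡ α [MOD k] ∧ ∀ p ∈ P, t % p ∉ Bad p)

theorem card_class (Y k α : ℕ) (hk : 0 < k) :
    |(((Ioc Y (2 * Y)).filter (fun t => t ≡ α [MOD k])).card : ℝ) - (Y : ℝ) / k| ≤ 1 := by
  have h := Nat.Ioc_filter_modEq_card Y (2 * Y) hk α
  set N := ((Ioc Y (2 * Y)).filter (fun t => t ≡ α [MOD k])).card with hN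
  have hk' : (0 : ℚ) < k := by exact_mod_cast hk
  set x : ℚ := (((2 * Y : ℕ) : ℚ) - α) / k with hx
  set y : ℚ := ((Y : ℚ) - α) / k with hy
  have hxy : x - y = (Y : ℚ) / k := by
    rw [hx, hy]
    push_cast
    ring
  have hyx : y ≤ x := by
    have : 0 ≤ (Y : ℚ) / k := by positivity
    linarith
  have hfl : ⌊y⌋ ≤ ⌊x⌋ := Int.floor_mono hyx
  have h' : (N : ℤ) = ⌊x⌋ - ⌊y⌋ := by
    rw [h, max_eq_left (by omega)]
  have hq : |(N : ℚ) - (Y : ℚ) / k| ≤ 1 := by
    have h1 : (N : ℚ) = (⌊x⌋ : ℚ) - (⌊y⌋ : ℚ) := by exact_mod_cast h'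
    rw [h1, ← hxy, abs_le]
    have h2 := Int.floor_le x
    have h3 := Int.lt_floor_add_one x
    have h4 := Int.floor_le y
    have h5 := Int.lt_floor_add_one y
    constructor <;> linarith
  have : |((N : ℚ) : ℝ) - (((Y : ℚ) / k : ℚ) : ℝ)| ≤ ((1 : ℚ) : ℝ) := by
    exact_mod_cast hq
  simpa using this

theorem sift_subset_class (Y : ℕ) (Bad : ℕ → Finset ℕ) (P : Finset ℕ) (k α : ℕ) :
    sift Y Bad P k α ⊆ (Ioc Y (2 * Y)).filter (fun t => t ≡ α [MOD k]) := by
  intro t ht
  rw [sift, Finset.mem_filter] at ht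
  rw [Finset.mem_filter]
  exact ⟨ht.1, ht.2.1⟩

theorem sift_card_insert (Y : ℕ) (Bad : ℕ → Finset ℕ) (P : Finset ℕ) (k α q : ℕ)
    (hq : 0 < q) (hkq : Nat.Coprime k q) (hB : Bad q ⊆ range q) :
    ∃ c : ℕ → ℕ, (sift Y Bad P k α).card =
      (sift Y Bad (insert q P) k α).card + ∑ β ∈ Bad q, (sift Y Bad P (k * q) (c β)).card := by
  classical
  let c : ℕ → ℕ := fun β => (Nat.chineseRemainder hkq α β : ℕ)
  refine ⟨c, ?_⟩
  rw [← Finset.card_filter_add_card_filter_not (s := sift Y Bad P k α) (fun t => t % q ∉ Bad q)]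
  have h1 : (sift Y Bad P k α).filter (fun t => t % q ∉ Bad q) = sift Y Bad (insert q P) k α := by
    ext t
    simp only [sift, Finset.mem_filter, Finset.forall_mem_insert]
    tauto
  rw [h1]
  congr 1
  have h2 : ∀ t ∈ (sift Y Bad P k α).filter (fun t => ¬ t % q ∉ Bad q), t % q ∈ Bad q := by
    intro t ht
    rw [Finset.mem_filter] at ht
    simpa using ht.2
  rw [Finset.card_eq_sum_card_fiberwise h2]
  apply Finset.sum_congr rfl
  intro β hβ
  congr 1
  ext t
  have hβq : β < q := by simpa using hB hβ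
  have h3 : t % q = β ↔ t ≡ β [MOD q] := by
    rw [Nat.ModEq, Nat.mod_eq_of_lt hβq]
  have hc1 : c β ≡ α [MOD k] := (Nat.chineseRemainder hkq α β).2.1
  have hc2 : c β ≡ β [MOD q] := (Nat.chineseRemainder hkq α β).2.2
  have h4 : t ≡ c β [MOD k * q] ↔ (t ≡ α [MOD k] ∧ t ≡ β [MOD q]) := by
    rw [← Nat.modEq_and_modEq_iff_modEq_mul hkq]
    constructor
    · rintro ⟨h5, h6⟩
      exact ⟨h5.trans hc1, h6.trans hc2⟩
    · rintro ⟨h5, h6⟩
      exact ⟨h5.trans hc1.symm, h6.trans hc2.symm⟩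
  simp only [sift, Finset.mem_filter, h3, h4]
  constructor
  · rintro ⟨⟨⟨h5, h6, h7⟩, h8⟩, h9⟩
    exact ⟨h5, ⟨h6, h9⟩, h7⟩
  · rintro ⟨h5, ⟨h6, h9⟩, h7⟩
    refine ⟨⟨⟨h5, h6, h7⟩, ?_⟩, h9⟩
    rw [h3.2 h9]
    simpa using hβ

theorem sieve_main (Y : ℕ) (Bad : ℕ → Finset ℕ) (s s' : ℝ) (hs : 0 < s) (hs' : 0 < s')
    (hs'1 : s' ≤ 1) (P : Finset ℕ) (hP : ∀ p ∈ P, p.Prime) (hB : ∀ p ∈ P, Bad p ⊆ range p) :
    ∀ (j k α : ℕ), 0 < k → (∀ p ∈ P, Nat.Coprime k p) →
      |((sift Y Bad P k α).card : ℝ) - (Y : ℝ) / k * ∏ p ∈ P, (1 - ((Bad p).card : ℝ) / p)| ≤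
        (Y : ℝ) / k * ((∏ p ∈ P, (1 + s * (((Bad p).card : ℝ) / p))) / s ^ j) +
          (∏ p ∈ P, (1 + s' * ((Bad p).card : ℝ))) / s' ^ j := by
  classical
  induction P using Finset.induction_on with
  | empty =>
    intro j k α hk _
    have h1 := card_class Y k α hk
    have h2 : sift Y Bad ∅ k α = (Ioc Y (2 * Y)).filter (fun t => t ≡ α [MOD k]) := by
      ext t
      simp [sift]
    rw [h2]
    simp only [Finset.prod_empty, mul_one]
    have h3 : 1 ≤ 1 / s' ^ j := by
      rw [le_div_iff₀ (by positivity), one_mul]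
      exact pow_le_one₀ hs'.le hs'1
    have h4 : 0 ≤ (Y : ℝ) / k * (1 / s ^ j) := by positivity
    linarith
  | insert q P hqP ih =>
    have hPq : ∀ p ∈ P, p.Prime := fun p hp => hP p (Finset.mem_insert_of_mem hp)
    have hBq : ∀ p ∈ P, Bad p ⊆ range p := fun p hp => hB p (Finset.mem_insert_of_mem hp)
    have ih := ih hPq hBq
    have hq : q.Prime := hP q (Finset.mem_insert_self _ _)
    have hq0 : (0 : ℝ) < q := by exact_mod_cast hq.pos
    intro j
    cases j with
    | zero =>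
      intro k α hk _
      have hk0 : (0 : ℝ) < k := by exact_mod_cast hk
      have h1 := card_class Y k α hk
      have h2 : ((sift Y Bad (insert q P) k α).card : ℝ) ≤
          (((Ioc Y (2 * Y)).filter (fun t => t ≡ α [MOD k])).card : ℝ) := by
        exact_mod_cast Finset.card_le_card (sift_subset_class Y Bad (insert q P) k α)
      rw [abs_le] at h1
      have hfac : ∀ p ∈ insert q P, 0 ≤ 1 - ((Bad p).card : ℝ) / p ∧
          1 - ((Bad p).card : ℝ) / p ≤ 1 := by
        intro p hp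
        have hp0 : (0 : ℝ) < p := by exact_mod_cast (hP p hp).pos
        have h3 : ((Bad p).card : ℝ) ≤ p := by
          have := Finset.card_le_card (hB p hp)
          rw [Finset.card_range] at this
          exact_mod_cast this
        have h4 : ((Bad p).card : ℝ) / p ≤ 1 := by
          rw [div_le_one hp0]; exact h3
        have h5 : 0 ≤ ((Bad p).card : ℝ) / p := by positivity
        constructor <;> linarith
      have hV0 : 0 ≤ ∏ p ∈ insert q P, (1 - ((Bad p).card : ℝ) / p) :=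
        Finset.prod_nonneg (fun p hp => (hfac p hp).1)
      have hV1 : ∏ p ∈ insert q P, (1 - ((Bad p).card : ℝ) / p) ≤ 1 :=
        Finset.prod_le_one (fun p hp => (hfac p hp).1) (fun p hp => (hfac p hp).2)
      have hW1 : 1 ≤ ∏ p ∈ insert q P, (1 + s * (((Bad p).card : ℝ) / p)) := by
        apply Finset.one_le_prod
        intro p hp
        have : 0 ≤ s * (((Bad p).card : ℝ) / p) := by positivity
        linarith
      have hW2 : 1 ≤ ∏ p ∈ insert q P, (1 + s' * ((Bad p).card : ℝ)) := by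
        apply Finset.one_le_prod
        intro p hp
        have : 0 ≤ s' * ((Bad p).card : ℝ) := by positivity
        linarith
      simp only [pow_zero, div_one]
      have hYk : 0 ≤ (Y : ℝ) / k := by positivity
      have h5 : (Y : ℝ) / k * ∏ p ∈ insert q P, (1 - ((Bad p).card : ℝ) / p) ≤ (Y : ℝ) / k * 1 :=
        mul_le_mul_of_nonneg_left hV1 hYk
      have h6 : 0 ≤ (Y : ℝ) / k * ∏ p ∈ insert q P, (1 - ((Bad p).card : ℝ) / p) :=
        mul_nonneg hYk hV0
      have h7 : (Y : ℝ) / k * 1 ≤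
          (Y : ℝ) / k * ∏ p ∈ insert q P, (1 + s * (((Bad p).card : ℝ) / p)) :=
        mul_le_mul_of_nonneg_left hW1 hYk
      have h8 : (0 : ℝ) ≤ ((sift Y Bad (insert q P) k α).card : ℝ) := by positivity
      rw [abs_le]
      constructor <;> linarith
    | succ j =>
      intro k α hk hcop
      have hkq : Nat.Coprime k q := hcop q (Finset.mem_insert_self _ _)
      have hcopP : ∀ p ∈ P, Nat.Coprime k p := fun p hp => hcop p (Finset.mem_insert_of_mem hp)
      obtain ⟨c, hc⟩ := sift_card_insert Y Bad P k α q hq.pos hkq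
        (hB q (Finset.mem_insert_self _ _))
      have hcop' : ∀ p ∈ P, Nat.Coprime (k * q) p := by
        intro p hp
        refine Nat.Coprime.mul_left (hcopP p hp) ?_
        rw [Nat.coprime_primes hq (hPq p hp)]
        rintro rfl
        exact hqP hp
      have ih1 := ih (j + 1) k α hk hcopP
      have ih2 := fun β => ih j (k * q) (c β) (Nat.mul_pos hk hq.pos) hcop'
      rw [Finset.prod_insert hqP, Finset.prod_insert hqP, Finset.prod_insert hqP]
      set V := ∏ p ∈ P, (1 - ((Bad p).card : ℝ) / p) with hV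
      set W := ∏ p ∈ P, (1 + s * (((Bad p).card : ℝ) / p)) with hW
      set W' := ∏ p ∈ P, (1 + s' * ((Bad p).card : ℝ)) with hW'
      set ν : ℝ := ((Bad q).card : ℝ) with hν
      have hk0 : (0 : ℝ) < k := by exact_mod_cast hk
      have hc' : ((sift Y Bad (insert q P) k α).card : ℝ) =
          ((sift Y Bad P k α).card : ℝ) - ∑ β ∈ Bad q, ((sift Y Bad P (k * q) (c β)).card : ℝ) := by
        have : ((sift Y Bad P k α).card : ℝ) = ((sift Y Bad (insert q P) k α).card : ℝ) +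
            ∑ β ∈ Bad q, ((sift Y Bad P (k * q) (c β)).card : ℝ) := by
          exact_mod_cast hc
        linarith
      have hsum : |∑ β ∈ Bad q, ((sift Y Bad P (k * q) (c β)).card : ℝ) -
          ν * ((Y : ℝ) / (k * q : ℕ) * V)| ≤
          ν * ((Y : ℝ) / (k * q : ℕ) * (W / s ^ j) + W' / s' ^ j) := by
        have e1 : ν * ((Y : ℝ) / (k * q : ℕ) * V) =
            ∑ _β ∈ Bad q, ((Y : ℝ) / (k * q : ℕ) * V) := by
          rw [Finset.sum_const, nsmul_eq_mul]
        have e2 : ν * ((Y : ℝ) / (k * q : ℕ) * (W / s ^ j) + W' / s' ^ j) =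
            ∑ _β ∈ Bad q, ((Y : ℝ) / (k * q : ℕ) * (W / s ^ j) + W' / s' ^ j) := by
          rw [Finset.sum_const, nsmul_eq_mul]
        rw [e1, e2, ← Finset.sum_sub_distrib]
        exact (Finset.abs_sum_le_sum_abs _ _).trans (Finset.sum_le_sum (fun β _ => ih2 β))
      have e3 : ((sift Y Bad (insert q P) k α).card : ℝ) - (Y : ℝ) / k * ((1 - ν / q) * V) =
          (((sift Y Bad P k α).card : ℝ) - (Y : ℝ) / k * V) -
          (∑ β ∈ Bad q, ((sift Y Bad P (k * q) (c β)).card : ℝ) -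
          ν * ((Y : ℝ) / (k * q : ℕ) * V)) := by
        rw [hc']
        push_cast
        field_simp
        ring
      have e4 : (Y : ℝ) / k * ((1 + s * (ν / q)) * W / s ^ (j + 1)) +
          (1 + s' * ν) * W' / s' ^ (j + 1) =
          ((Y : ℝ) / k * (W / s ^ (j + 1)) + W' / s' ^ (j + 1)) +
          ν * ((Y : ℝ) / (k * q : ℕ) * (W / s ^ j) + W' / s' ^ j) := by
        push_cast
        field_simp
        ring
      rw [e3, e4]
      exact (abs_sub _ _).trans (add_le_add ih1 hsum)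

end Pool.Agent.AE
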